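import Mathlib

set_option autoImplicit false

namespace Pool.Agent.X172.Wheel

open Finset SimpleGraph

/-- The wheel with four spokes: hub `0`, rim `1 - 2 - 3 - 4 - 1`. -/
def W4 : SimpleGraph (Fin 5) :=
  SimpleGraph.fromEdgeSet {s(0, 1), s(0, 2), s(0, 3), s(0, 4), s(1, 2), s(2, 3), s(3, 4), s(4, 1)}

section Free

variable {V : Type*} {G : SimpleGraph V}

theorem free_iff : W4.Free G ↔ ∀ h a b c d : V, G.Adj h a → G.Adj h b → G.Adj h c → G.Adj h d →
    G.Adj a b → G.Adj b c → G.Adj c d → G.Adj d a → a = c ∨ b = d := by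
  constructor
  · intro hf h a b c d ha hb hc hd hab hbc hcd hda
    by_contra hne
    push Not at hne
    obtain ⟨hac, hbd⟩ := hne
    refine hf ⟨⟨⟨![h, a, b, c, d], ?_⟩, ?_⟩⟩
    · intro i j hij
      unfold W4 at hij
      rw [fromEdgeSet_adj] at hij
      obtain ⟨h1, h2⟩ := hij
      fin_cases i <;> fin_cases j <;>
        simp_all [G.adj_comm]
    · intro i j hij
      have e1 := ha.ne
      have e2 := hb.ne
      have e3 := hc.ne
      have e4 := hd.ne
      have e5 := hab.ne
      have e6 := hbc.ne
      have e7 := hcd.ne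
      have e8 := hda.ne
      fin_cases i <;> fin_cases j <;> simp_all [eq_comm]
  · rintro hf ⟨f⟩
    have hadj : ∀ i j : Fin 5, W4.Adj i j → G.Adj (f i) (f j) := fun i j hij => f.toHom.map_adj hij
    have hinj := f.injective
    have := hf (f 0) (f 1) (f 2) (f 3) (f 4)
      (hadj _ _ (by unfold W4; simp)) (hadj _ _ (by unfold W4; simp))
      (hadj _ _ (by unfold W4; simp)) (hadj _ _ (by unfold W4; simp))
      (hadj _ _ (by unfold W4; simp)) (hadj _ _ (by unfold W4; simp))
      (hadj _ _ (by unfold W4; simp)) (hadj _ _ (by unfold W4; simp))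
    rcases this with h | h
    · have := hinj h
      simp at this
    · have := hinj h
      simp at this

/-- `P` cuts the vertex set into two sides such that both sides induce a matching. -/
def Matched (G : SimpleGraph V) (P : V → Bool) : Prop :=
  ∀ x y z, P x = P y → P z = P y → G.Adj y x → G.Adj y z → x = z

theorem free_of_matched {P : V → Bool} (hP : Matched G P) : W4.Free G := by
  rw [free_iff]
  intro h a b c d ha hb hc hd hab hbc hcd hda
  have ne : ∀ {x y : V}, G.Adj x y → x ≠ y := fun h => h.ne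
  by_contra hne
  push Not at hne
  obtain ⟨hac, hbd⟩ := hne
  have k1 : ¬ (P a = P h ∧ P b = P h) := fun H => ne hab (hP a h b H.1 H.2 ha hb)
  have k2 : ¬ (P b = P h ∧ P c = P h) := fun H => ne hbc (hP b h c H.1 H.2 hb hc)
  have k3 : ¬ (P c = P h ∧ P d = P h) := fun H => ne hcd (hP c h d H.1 H.2 hc hd)
  have k4 : ¬ (P d = P h ∧ P a = P h) := fun H => ne hda (hP d h a H.1 H.2 hd ha)
  have k5 : ¬ (P a = P h ∧ P c = P h) := fun H => hac (hP a h c H.1 H.2 ha hc)
  have k6 : ¬ (P b = P h ∧ P d = P h) := fun H => hbd (hP b h d H.1 H.2 hb hd)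
  have m1 : ¬ (P a = P b ∧ P c = P b) := fun H => hac (hP a b c H.1 H.2 hab.symm hbc)
  have m2 : ¬ (P b = P c ∧ P d = P c) := fun H => hbd (hP b c d H.1 H.2 hbc.symm hcd)
  have m3 : ¬ (P c = P d ∧ P a = P d) := fun H => hac (hP c d a H.1 H.2 hcd.symm hda).symm
  have m4 : ¬ (P d = P a ∧ P b = P a) := fun H => hbd (hP d a b H.1 H.2 hda.symm hab).symm
  revert k1 k2 k3 k4 k5 k6 m1 m2 m3 m4
  generalize P a = pa
  generalize P b = pb
  generalize P c = pc
  generalize P d = pd
  generalize P h = ph
  cases pa <;> cases pb <;> cases pc <;> cases pd <;> cases ph <;> simp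

end Free

section Count

variable {V : Type*} [Fintype V] [DecidableEq V] (G : SimpleGraph V) [DecidableRel G.Adj]

/-- The number of neighbours of `x` in `S`. -/
def nb (x : V) (S : Finset V) : ℕ := (S.filter (fun y => G.Adj x y)).card

variable {G}

omit [Fintype V] in
theorem cherry (hf : W4.Free G) {h : V} {X Y : Finset V} (hX : ∀ x ∈ X, G.Adj h x)
    (hY : ∀ y ∈ Y, G.Adj h y) {k : ℕ} (hk : ∀ x ∈ X, k ≤ nb G x Y) :
    X.card * k ^ 2 ≤ X.card * Y.card + Y.card ^ 2 := by
  rw [free_iff] at hf
  calc X.card * k ^ 2 = ∑ x ∈ X, k ^ 2 := by rw [sum_const, smul_eq_mul]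
    _ ≤ ∑ x ∈ X, (nb G x Y) ^ 2 := sum_le_sum fun x hx => Nat.pow_le_pow_left (hk x hx) 2
    _ = ∑ x ∈ X, ∑ p ∈ Y ×ˢ Y, if (G.Adj x p.1 ∧ G.Adj x p.2) then 1 else 0 := by
        refine sum_congr rfl fun x _ => ?_
        rw [← card_filter, filter_product, card_product]
        unfold nb
        rw [sq]
    _ = ∑ p ∈ Y ×ˢ Y, ∑ x ∈ X, if (G.Adj x p.1 ∧ G.Adj x p.2) then 1 else 0 := sum_comm
    _ = ∑ p ∈ Y.diag, (∑ x ∈ X, if (G.Adj x p.1 ∧ G.Adj x p.2) then 1 else 0)
        + ∑ p ∈ Y.offDiag, (∑ x ∈ X, if (G.Adj x p.1 ∧ G.Adj x p.2) then 1 else 0) := by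
        rw [← diag_union_offDiag, sum_union (disjoint_diag_offDiag Y)]
    _ ≤ ∑ p ∈ Y.diag, X.card + ∑ p ∈ Y.offDiag, 1 := by
        refine add_le_add (sum_le_sum fun p _ => ?_) (sum_le_sum fun p hp => ?_)
        · rw [← card_filter]
          exact card_filter_le _ _
        · rw [← card_filter, card_le_one]
          intro x hx x' hx'
          simp only [mem_filter] at hx hx'
          rw [mem_offDiag] at hp
          rcases hf h p.1 x p.2 x' (hY _ hp.1) (hX _ hx.1) (hY _ hp.2.1) (hX _ hx'.1)
            hx.2.1.symm hx.2.2 hx'.2.2.symm hx'.2.1 with h1 | h1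
          · exact absurd h1 hp.2.2
          · exact h1
    _ ≤ X.card * Y.card + Y.card ^ 2 := by
        rw [sum_const, sum_const, diag_card, offDiag_card, smul_eq_mul, smul_eq_mul, mul_one,
          mul_comm, sq]
        exact Nat.add_le_add_left (Nat.sub_le _ _) _

theorem few (hf : W4.Free G) (hn : 2000000 < Fintype.card V) {h : V} {X Y : Finset V}
    (hX : ∀ x ∈ X, G.Adj h x) (hY : ∀ y ∈ Y, G.Adj h y)
    (hk : ∀ x ∈ X, Fintype.card V ≤ 100 * nb G x Y) : 100 * X.card < Fintype.card V := by
  set n := Fintype.card V with hndef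
  by_contra hcon
  push Not at hcon
  have h1 := cherry hf hX hY (k := (n + 99) / 100) (fun x hx => by have := hk x hx; omega)
  have hy : Y.card ≤ n := card_le_univ Y
  set x := X.card
  set y := Y.card
  set k := (n + 99) / 100 with hkdef
  have hk100 : n ≤ 100 * k := by omega
  have h2 : n * n ≤ 10000 * k ^ 2 := by nlinarith
  have h3 : x * (n * n) ≤ 10000 * (x * n + n * n) := by
    calc x * (n * n) ≤ x * (10000 * k ^ 2) := Nat.mul_le_mul_left _ h2
      _ = 10000 * (x * k ^ 2) := by ring
      _ ≤ 10000 * (x * y + y ^ 2) := Nat.mul_le_mul_left _ h1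
      _ ≤ 10000 * (x * n + n * n) := by
        refine Nat.mul_le_mul_left _ (add_le_add (Nat.mul_le_mul_left _ hy) ?_)
        nlinarith
  have h4 : n * (x * n) ≤ n * (10000 * (x + n)) := by
    calc n * (x * n) = x * (n * n) := by ring
      _ ≤ 10000 * (x * n + n * n) := h3
      _ = n * (10000 * (x + n)) := by ring
  have h5 : x * n ≤ 10000 * (x + n) := le_of_mul_le_mul_left h4 (by omega)
  have h6 : x * n ≤ x * 1010000 := by nlinarith
  have h7 : n ≤ 1010000 := le_of_mul_le_mul_left h6 (by omega)
  omega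

omit [DecidableEq V] in
theorem nb_univ_eq (x : V) : nb G x univ = G.degree x := by
  unfold nb
  rw [← card_neighborFinset_eq_degree]
  congr 1
  ext y
  simp

omit [Fintype V] in
/-- `|N(x) ∩ S| + |T| ≤ |S| + |N(x) ∩ T|` for `T ⊆ S`. -/
theorem nb_inter (x : V) (S T : Finset V) (hT : T ⊆ S) :
    nb G x S + T.card ≤ S.card + nb G x T := by
  unfold nb
  have h1 : (S.filter (fun y => G.Adj x y)).card ≤
      (T.filter (fun y => G.Adj x y)).card + (S \ T).card := by
    refine (card_le_card ?_).trans (card_union_le _ _)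
    intro y hy
    rw [mem_filter] at hy
    by_cases h : y ∈ T
    · exact mem_union_left _ (mem_filter.mpr ⟨h, hy.2⟩)
    · exact mem_union_right _ (mem_sdiff.mpr ⟨hy.1, h⟩)
  have h2 := card_sdiff_add_card_eq_card hT
  omega

/-- Structure of `W_4`-free graphs of minimum degree close to `n / 2`. -/
theorem structure_thm (hf : W4.Free G) (hn : 2000000 < Fintype.card V)
    (hdeg : ∀ v, 49 * Fintype.card V ≤ 100 * G.degree v) : ∃ P : V → Bool, Matched G P := by
  have hf' := hf
  rw [free_iff] at hf'
  have hdeg' : ∀ v, 49 * Fintype.card V ≤ 100 * nb G v univ := by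
    intro v
    rw [nb_univ_eq]
    exact hdeg v
  have hfew := @few V _ _ G _ hf hn
  set n := Fintype.card V with hndef
  have hne : Nonempty V := by
    rw [← Fintype.card_pos_iff]; omega
  obtain ⟨u⟩ := hne
  set A := univ.filter (fun y => G.Adj u y) with hA
  have hAc : 49 * n ≤ 100 * A.card := hdeg' u
  -- a neighbour `v` of `u` with few common neighbours
  obtain ⟨v, hvA, hv⟩ : ∃ v ∈ A, 100 * nb G v A < n := by
    by_contra hcon
    push Not at hcon
    have := hfew (h := u) (X := A) (Y := A) (fun x hx => (mem_filter.mp hx).2)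
      (fun x hx => (mem_filter.mp hx).2) hcon
    omega
  set B := univ.filter (fun y => G.Adj v y) with hB
  have hBc : 49 * n ≤ 100 * B.card := hdeg' v
  have hAB : (A ∩ B).card = nb G v A := by
    unfold nb
    congr 1
    ext y
    simp [hB]
  set R := univ \ (A ∪ B) with hR
  have hcardR : R.card + (A.card + B.card) = n + nb G v A := by
    have h1 := card_union_add_card_inter A B
    have h2 := card_sdiff_add_card_eq_card (subset_univ (A ∪ B))
    rw [card_univ, ← hR] at h2
    rw [hAB] at h1
    omega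
  -- every vertex has few neighbours outside `A ∪ B`
  have hsplit : ∀ x, nb G x univ ≤ nb G x A + nb G x B + R.card := by
    intro x
    unfold nb
    have h1 : univ.filter (fun y => G.Adj x y) ⊆
        (A.filter (fun y => G.Adj x y) ∪ B.filter (fun y => G.Adj x y)) ∪ R := by
      intro y hy
      rw [mem_filter] at hy
      simp only [mem_union, mem_filter, hR, mem_sdiff, mem_univ, true_and]
      tauto
    refine (card_le_card h1).trans ((card_union_le _ _).trans ?_)
    have := card_union_le (A.filter (fun y => G.Adj x y)) (B.filter (fun y => G.Adj x y))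
    omega
  have hRs : 100 * R.card < 3 * n := by omega
  have hBs : 100 * B.card < 52 * n := by omega
  have hAs : 100 * A.card < 52 * n := by
    omega
  -- the atypical vertices of `A`
  have hbad := hfew (h := u) (X := A.filter (fun x => n ≤ 100 * nb G x A)) (Y := A)
    (fun x hx => (mem_filter.mp (mem_filter.mp hx).1).2)
    (fun x hx => (mem_filter.mp hx).2) (fun x hx => (mem_filter.mp hx).2)
  -- no vertex has many neighbours in both sets
  have hdich : ∀ x, 2 * n ≤ 100 * nb G x A → 100 * nb G x B < 8 * n := by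
    intro x hx
    by_contra hcon
    push Not at hcon
    set Y := B.filter (fun y => G.Adj x y) with hY
    set X := A.filter (fun y => G.Adj x y ∧ ¬ n ≤ 100 * nb G y A) with hX
    have hXc : nb G x A ≤ X.card + (A.filter (fun x => n ≤ 100 * nb G x A)).card := by
      unfold nb
      refine (card_le_card ?_).trans (card_union_le _ _)
      intro y hy
      rw [mem_filter] at hy
      simp only [hX, mem_union, mem_filter]
      by_cases h : n ≤ 100 * nb G y A
      · exact Or.inr ⟨hy.1, h⟩
      · exact Or.inl ⟨hy.1, hy.2, h⟩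
    have hkey : ∀ y ∈ X, n ≤ 100 * nb G y Y := by
      intro y hy
      rw [hX, mem_filter] at hy
      have h1 := hsplit y
      have h2 := hdeg' y
      have h3 := nb_inter (G := G) y B Y (filter_subset _ _)
      have h4 : Y.card = nb G x B := rfl
      omega
    have := hfew (h := x) (X := X) (Y := Y) (fun y hy => ((mem_filter.mp hy).2).1)
      (fun y hy => (mem_filter.mp hy).2) hkey
    omega
  -- the common neighbourhood of three vertices
  have hthree : ∀ (S : Finset V) (m : ℕ) (x y z : V), 100 * S.card < 52 * n →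
      m * n < 100 * nb G x S → m * n < 100 * nb G y S → m * n < 100 * nb G z S → 38 ≤ m →
      ∃ p q, p ≠ q ∧ G.Adj x p ∧ G.Adj x q ∧ G.Adj y p ∧ G.Adj y q ∧ G.Adj z p ∧ G.Adj z q := by
    intro S m x y z hS hx hy hz hm
    have e1 := nb_inter (G := G) y S (S.filter (fun p => G.Adj x p)) (filter_subset _ _)
    have e2 := nb_inter (G := G) z S
      ((S.filter (fun p => G.Adj x p)).filter (fun p => G.Adj y p))
      ((filter_subset _ _).trans (filter_subset _ _))
    have e3 : (S.filter (fun p => G.Adj x p)).card = nb G x S := rfl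
    have e4 : ((S.filter (fun p => G.Adj x p)).filter (fun p => G.Adj y p)).card
      = nb G y (S.filter (fun p => G.Adj x p)) := rfl
    have hmn : 38 * n ≤ m * n := Nat.mul_le_mul_right _ hm
    have e5 : 1 < nb G z ((S.filter (fun p => G.Adj x p)).filter (fun p => G.Adj y p)) := by
      omega
    unfold nb at e5
    rw [one_lt_card] at e5
    obtain ⟨p, hp, q, hq, hpq⟩ := e5
    simp only [mem_filter] at hp hq
    exact ⟨p, q, hpq, hp.1.1.2, hq.1.1.2, hp.1.2, hq.1.2, hp.2, hq.2⟩
  refine ⟨fun x => decide (2 * n ≤ 100 * nb G x A), fun x y z hxy hzy h1 h2 => ?_⟩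
  simp only [decide_eq_decide] at hxy hzy
  by_cases hc : 2 * n ≤ 100 * nb G y A
  · have hx := hxy.mpr hc
    have hz := hzy.mpr hc
    have dx := hdich x hx
    have dy := hdich y hc
    have dz := hdich z hz
    have sx := hsplit x
    have sy := hsplit y
    have sz := hsplit z
    have gx := hdeg' x
    have gy := hdeg' y
    have gz := hdeg' z
    obtain ⟨p, q, hpq, a1, a2, a3, a4, a5, a6⟩ := hthree A 38 x y z hAs (by omega) (by omega)
      (by omega) le_rfl
    rcases hf' y x p z q h1 a3 h2 a4 a1 a5.symm a6 a2.symm with h | h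
    · exact h
    · exact absurd h hpq
  · have hx := fun h => hc (hxy.mp h)
    have hz := fun h => hc (hzy.mp h)
    have sx := hsplit x
    have sy := hsplit y
    have sz := hsplit z
    have gx := hdeg' x
    have gy := hdeg' y
    have gz := hdeg' z
    obtain ⟨p, q, hpq, a1, a2, a3, a4, a5, a6⟩ := hthree B 44 x y z hBs (by omega) (by omega)
      (by omega) (by norm_num)
    rcases hf' y x p z q h1 a3 h2 a4 a1 a5.symm a6 a2.symm with h | h
    · exact h
    · exact absurd h hpq

end Count

end Pool.Agent.X172.Wheel
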