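import Mathlib
import Pool.Agent.X172.Wheel

set_option autoImplicit false

namespace Pool.Agent.X172.Wheel

open Finset SimpleGraph

/-- `G` is maximal `H`-free. -/
def MaxFree {k : ℕ} (H : SimpleGraph (Fin k)) {V : Type} (G : SimpleGraph V) : Prop :=
  H.Free G ∧ ∀ u v, u ≠ v → ¬ G.Adj u v → ¬ H.Free (G ⊔ edge u v)

/-- `G` is a blowup of `F`: the vertices of `G` are partitioned into nonempty sets `V_x`, `x` a
vertex of `F`, and two vertices are adjacent if and only if they lie in `V_x`, `V_y` with `xy` an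
edge of `F`. -/
def IsBlowup {V W : Type} (G : SimpleGraph V) (F : SimpleGraph W) : Prop :=
  ∃ φ : V → W, Function.Surjective φ ∧ ∀ u v, G.Adj u v ↔ F.Adj (φ u) (φ v)

/-- The property defining the blowup threshold. -/
def BlowupProp {k : ℕ} (H : SimpleGraph (Fin k)) (α : ℝ) : Prop :=
  ∃ C : ℕ, ∀ (V : Type) [Fintype V] (G : SimpleGraph V) [DecidableRel G.Adj],
    MaxFree H G → α * Fintype.card V ≤ G.minDegree →
      ∃ (W : Type) (_ : Fintype W) (F : SimpleGraph W), Fintype.card W ≤ C ∧ IsBlowup G F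

/-- The blowup threshold. -/
noncomputable def deltaB {k : ℕ} (H : SimpleGraph (Fin k)) : ℝ :=
  sInf {α : ℝ | 0 ≤ α ∧ BlowupProp H α}

/-- The property defining the homomorphism threshold. -/
def HomProp {k : ℕ} (H : SimpleGraph (Fin k)) (α : ℝ) : Prop :=
  ∃ (W : Type) (_ : Fintype W) (F : SimpleGraph W), H.Free F ∧
    ∀ (V : Type) [Fintype V] (G : SimpleGraph V) [DecidableRel G.Adj],
      H.Free G → α * Fintype.card V ≤ G.minDegree → Nonempty (G →g F)

/-- The homomorphism threshold. -/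
noncomputable def deltaHom {k : ℕ} (H : SimpleGraph (Fin k)) : ℝ :=
  sInf {α : ℝ | 0 ≤ α ∧ HomProp H α}

/-- The property defining the VC-dimension threshold. -/
def VCProp {k : ℕ} (H : SimpleGraph (Fin k)) (α : ℝ) : Prop :=
  ∃ C : ℕ, ∀ (V : Type) [Fintype V] [DecidableEq V] (G : SimpleGraph V) [DecidableRel G.Adj],
    MaxFree H G → α * Fintype.card V ≤ G.minDegree →
      (univ.image (fun v => G.neighborFinset v)).vcDim ≤ C

/-- The VC-dimension threshold. -/
noncomputable def deltaVC {k : ℕ} (H : SimpleGraph (Fin k)) : ℝ :=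
  sInf {α : ℝ | 0 ≤ α ∧ VCProp H α}

section Colour

theorem colorable_of_matched {V : Type} [Fintype V] {G : SimpleGraph V} {P : V → Bool}
    (hP : Matched G P) : Nonempty (G →g (⊤ : SimpleGraph (Fin 4))) := by
  classical
  let e := Fintype.equivFin V
  let C : G.Coloring (Bool × Bool) := Coloring.mk
    (fun x => (P x, decide (∃ y, P y = P x ∧ G.Adj x y ∧ e x < e y))) (by
      intro x y hxy hc
      rw [Prod.mk.injEq, decide_eq_decide] at hc
      obtain ⟨h1, h2⟩ := hc
      rcases lt_trichotomy (e x) (e y) with h | h | h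
      · obtain ⟨z, hz1, hz2, hz3⟩ := h2.mp ⟨y, h1.symm, hxy, h⟩
        have := hP x y z h1 hz1 hxy.symm hz2
        subst this
        exact absurd (h.trans hz3) (lt_irrefl _)
      · exact hxy.ne (e.injective h)
      · obtain ⟨z, hz1, hz2, hz3⟩ := h2.mpr ⟨x, h1, hxy.symm, h⟩
        have := hP y x z h1.symm hz1 hxy hz2
        subst this
        exact absurd (h.trans hz3) (lt_irrefl _))
  have h4 : G.Colorable 4 := by
    have := C.colorable
    simpa using this
  exact h4

end Colour

section Universal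

/-- The disjoint union of all `W_4`-free graphs on `Fin N`. -/
def U (N : ℕ) : SimpleGraph ({G : SimpleGraph (Fin N) // W4.Free G} × Fin N) where
  Adj x y := x.1 = y.1 ∧ x.1.1.Adj x.2 y.2
  symm := ⟨by
    rintro ⟨G, a⟩ ⟨G', b⟩ ⟨h1, h2⟩
    simp only at h1 h2
    subst h1
    exact ⟨rfl, h2.symm⟩⟩
  loopless := ⟨by
    rintro ⟨G, a⟩ ⟨_, h2⟩
    exact G.1.loopless.irrefl _ h2⟩

theorem U_free (N : ℕ) : W4.Free (U N) := by
  rw [free_iff]
  rintro ⟨G, h⟩ ⟨G1, a⟩ ⟨G2, b⟩ ⟨G3, c⟩ ⟨G4, d⟩ ⟨e1, ha⟩ ⟨e2, hb⟩ ⟨e3, hc⟩ ⟨e4, hd⟩ ⟨_, hab⟩ ⟨_, hbc⟩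
    ⟨_, hcd⟩ ⟨_, hda⟩
  simp only at e1 e2 e3 e4 ha hb hc hd hab hbc hcd hda
  subst e1 e2 e3 e4
  have := free_iff.mp G.2 h a b c d ha hb hc hd hab hbc hcd hda
  rcases this with h | h
  · left; rw [h]
  · right; rw [h]

theorem map_free {V W : Type} {G : SimpleGraph V} (hG : W4.Free G) (f : V ↪ W) :
    W4.Free (G.map f) := by
  rw [free_iff] at hG ⊢
  intro h a b c d ha hb hc hd hab hbc hcd hda
  have key : ∀ x y, (G.map f).Adj x y → ∃ x' y', G.Adj x' y' ∧ f x' = x ∧ f y' = y := by
    intro x y hxy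
    rw [map_adj] at hxy
    exact hxy
  have key2 : ∀ x y, (G.map f).Adj (f x) (f y) → G.Adj x y := by
    intro x y hxy
    obtain ⟨x', y', h1, h2, h3⟩ := key _ _ hxy
    rwa [f.injective h2, f.injective h3] at h1
  obtain ⟨h', a', -, rfl, rfl⟩ := key _ _ ha
  obtain ⟨-, b', -, -, rfl⟩ := key _ _ hb
  obtain ⟨-, c', -, -, rfl⟩ := key _ _ hc
  obtain ⟨-, d', -, -, rfl⟩ := key _ _ hd
  rcases hG h' a' b' c' d' (key2 _ _ ha) (key2 _ _ hb) (key2 _ _ hc) (key2 _ _ hd) (key2 _ _ hab)
    (key2 _ _ hbc) (key2 _ _ hcd) (key2 _ _ hda) with h | h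
  · left; rw [h]
  · right; rw [h]

theorem hom_small {N : ℕ} {V : Type} [Fintype V] {G : SimpleGraph V} (hG : W4.Free G)
    (hV : Fintype.card V ≤ N) : Nonempty (G →g U N) := by
  let f : V ↪ Fin N := (Fintype.equivFin V).toEmbedding.trans (Fin.castLEEmb hV)
  refine ⟨⟨fun v => (⟨G.map f, map_free hG f⟩, f v), ?_⟩⟩
  intro x y hxy
  exact ⟨rfl, (map_adj_apply).mpr hxy⟩

theorem top4_free : W4.Free (⊤ : SimpleGraph (Fin 4)) := by
  apply free_of_matched (P := fun i => decide (i < 2))
  unfold Matched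
  simp only [top_adj]
  decide

theorem homProp : HomProp W4 (49 / 100) := by
  classical
  refine ⟨_, inferInstance, U 2000000, U_free _, ?_⟩
  intro V _ G _ hG hdeg
  by_cases hV : Fintype.card V ≤ 2000000
  · exact hom_small hG hV
  · push Not at hV
    obtain ⟨P, hP⟩ := structure_thm hG hV (by
      intro v
      have h1 := G.minDegree_le_degree v
      have h2 : (49 / 100 : ℝ) * Fintype.card V ≤ G.degree v := hdeg.trans (by exact_mod_cast h1)
      have h3 : (49 : ℝ) * Fintype.card V ≤ 100 * G.degree v := by linarith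
      exact_mod_cast h3)
    obtain ⟨g⟩ := colorable_of_matched hP
    obtain ⟨g'⟩ := hom_small (N := 2000000) top4_free (by simp)
    exact ⟨g'.comp g⟩

end Universal

section Maximal

/-- In a maximal `W_4`-free graph with a matched partition all cross pairs are adjacent. -/
theorem cross {V : Type} {G : SimpleGraph V} (hG : MaxFree W4 G) {P : V → Bool}
    (hP : Matched G P) {u v : V} (huv : P u ≠ P v) : G.Adj u v := by
  by_contra hcon
  refine hG.2 u v (fun h => huv (by rw [h])) hcon (free_of_matched (P := P) ?_)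
  intro x y z hx hz h1 h2
  have key : ∀ a b, P a = P b → (G ⊔ edge u v).Adj a b → G.Adj a b := by
    intro a b hab h
    rw [sup_adj, edge_adj] at h
    rcases h with h | ⟨h | h, _⟩
    · exact h
    · exact absurd (by rw [← h.1, ← h.2, hab]) huv
    · exact absurd (by rw [← h.1, ← h.2, hab]) huv
  exact hP x y z hx hz (key _ _ hx.symm h1) (key _ _ hz.symm h2)

theorem vcProp : VCProp W4 (49 / 100) := by
  refine ⟨2000000, ?_⟩
  intro V _ _ G _ hG hdeg
  unfold Finset.vcDim
  refine Finset.sup_le fun s hs => ?_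
  rw [mem_shatterer] at hs
  by_cases hV : Fintype.card V ≤ 2000000
  · exact (card_le_univ s).trans hV
  · push Not at hV
    obtain ⟨P, hP⟩ := structure_thm hG.1 hV (by
      intro v
      have h1 := G.minDegree_le_degree v
      have h2 : (49 / 100 : ℝ) * Fintype.card V ≤ G.degree v := hdeg.trans (by exact_mod_cast h1)
      have h3 : (49 : ℝ) * Fintype.card V ≤ 100 * G.degree v := by linarith
      exact_mod_cast h3)
    have hsh : ∀ T ⊆ s, ∃ v, ∀ x ∈ s, (x ∈ T ↔ G.Adj v x) := by
      intro T hT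
      obtain ⟨u, hu, huT⟩ := hs hT
      rw [mem_image] at hu
      obtain ⟨v, -, rfl⟩ := hu
      refine ⟨v, fun x hx => ?_⟩
      rw [← huT, mem_inter, mem_neighborFinset]
      exact ⟨fun h => h.2, fun h => ⟨hx, h⟩⟩
    suffices h : s.card ≤ 2 by omega
    by_contra hcon
    push Not at hcon
    have main : ∀ a b c, a ∈ s → b ∈ s → c ∈ s → a ≠ b → a ≠ c → b ≠ c → P a = P b → False := by
      intro a b c ha hb hc hab hac hbc hPab
      by_cases hPc : P c = P a
      · obtain ⟨v, hv⟩ := hsh {a, b} (by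
          intro x hx
          rw [mem_insert, mem_singleton] at hx
          rcases hx with rfl | rfl <;> assumption)
        have va : G.Adj v a := (hv a ha).mp (by simp)
        have vb : G.Adj v b := (hv b hb).mp (by simp)
        have vc : ¬ G.Adj v c := fun h => by
          have := (hv c hc).mpr h
          rw [mem_insert, mem_singleton] at this
          rcases this with h | h
          · exact hac h.symm
          · exact hbc h.symm
        by_cases hPv : P v = P a
        · exact hab (hP a v b hPv.symm (hPab.symm.trans hPv.symm) va vb)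
        · exact vc (cross hG hP (by rw [hPc]; exact hPv))
      · obtain ⟨v, hv⟩ := hsh {a} (by
          intro x hx
          rw [mem_singleton] at hx
          rw [hx]; exact ha)
        have vb : ¬ G.Adj v b := fun h => by
          have := (hv b hb).mpr h
          rw [mem_singleton] at this
          exact hab this.symm
        have vc : ¬ G.Adj v c := fun h => by
          have := (hv c hc).mpr h
          rw [mem_singleton] at this
          exact hac this.symm
        by_cases hPv : P v = P a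
        · exact vc (cross hG hP (by rw [hPv]; exact fun h => hPc h.symm))
        · exact vb (cross hG hP (by rw [← hPab]; exact hPv))
    obtain ⟨a, ha, b, hb, c, hc, hab, hac, hbc⟩ := two_lt_card.mp hcon
    by_cases h1 : P a = P b
    · exact main a b c ha hb hc hab hac hbc h1
    · by_cases h2 : P a = P c
      · exact main a c b ha hc hb hac hab hbc.symm h2
      · refine main b c a hb hc ha hbc hab.symm hac.symm ?_
        revert h1 h2
        cases P a <;> cases P b <;> cases P c <;> simp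

end Maximal

section Example

/-- The complete bipartite graph `K_{2m,2m}` together with a perfect matching in each side. -/
def Ex (m : ℕ) : SimpleGraph (Bool × Fin m × Bool) where
  Adj x y := x.1 ≠ y.1 ∨ (x.2.1 = y.2.1 ∧ x.2.2 ≠ y.2.2)
  symm := ⟨by
    rintro x y (h | ⟨h1, h2⟩)
    · exact Or.inl h.symm
    · exact Or.inr ⟨h1.symm, h2.symm⟩⟩
  loopless := ⟨by
    rintro x (h | ⟨_, h⟩)
    · exact h rfl
    · exact h rfl⟩

instance (m : ℕ) : DecidableRel (Ex m).Adj := fun x y => by unfold Ex; infer_instance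

theorem Ex_matched (m : ℕ) : Matched (Ex m) Prod.fst := by
  rintro ⟨s, i, e⟩ ⟨s', i', e'⟩ ⟨s'', i'', e''⟩ hx hz h1 h2
  simp only at hx hz
  subst hx hz
  simp only [Ex, ne_eq, not_true_eq_false, false_or] at h1 h2
  obtain ⟨h1, h3⟩ := h1
  obtain ⟨h2, h4⟩ := h2
  rw [← h1, ← h2]
  have : e = e'' := by
    revert h3 h4
    cases e <;> cases e' <;> cases e'' <;> simp
  rw [this]

theorem Ex_max {m : ℕ} (hm : 0 < m) : MaxFree W4 (Ex m) := by
  refine ⟨free_of_matched (Ex_matched m), ?_⟩
  rintro ⟨s, i, e⟩ ⟨s', j, f⟩ hne hadj hfree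
  simp only [Ex, ne_eq, not_or, not_and, not_not] at hadj
  obtain ⟨rfl, h2⟩ := hadj
  have hij : i ≠ j := by
    intro h
    subst h
    exact hne (by rw [h2 rfl])
  rw [free_iff] at hfree
  have hE : ∀ x y, (Ex m).Adj x y → (Ex m ⊔ edge (s, i, e) (s, j, f)).Adj x y :=
    fun x y h => Or.inl h
  have := hfree (!s, ⟨0, hm⟩, false) (!s, ⟨0, hm⟩, true) (s, i, !e) (s, i, e) (s, j, f)
    (hE _ _ (by simp [Ex])) (hE _ _ (by simp [Ex])) (hE _ _ (by simp [Ex])) (hE _ _ (by simp [Ex]))
    (hE _ _ (by simp [Ex])) (hE _ _ (by simp [Ex]))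
    (by
      rw [sup_adj, edge_adj]
      right
      refine ⟨Or.inl ⟨rfl, rfl⟩, ?_⟩
      simp [hij])
    (hE _ _ (by simp [Ex]))
  rcases this with h | h
  · simp at h
  · rw [Prod.mk.injEq, Prod.mk.injEq] at h
    exact hij h.2.1

theorem Ex_deg {m : ℕ} (x : Bool × Fin m × Bool) : 2 * m ≤ (Ex m).degree x := by
  rw [← card_neighborFinset_eq_degree]
  have h1 : ({!x.1} : Finset Bool) ×ˢ (univ : Finset (Fin m × Bool)) ⊆ (Ex m).neighborFinset x := by
    rintro ⟨s, y⟩ hy
    rw [mem_product, mem_singleton] at hy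
    rw [mem_neighborFinset]
    left
    simp only at hy
    rw [hy.1]
    simp
  have h2 := card_le_card h1
  rw [card_product, card_singleton, card_univ, Fintype.card_prod, Fintype.card_fin,
    Fintype.card_bool] at h2
  omega

theorem Ex_twinfree {m : ℕ} {W : Type} {F : SimpleGraph W} (φ : Bool × Fin m × Bool → W)
    (hφ : ∀ u v, (Ex m).Adj u v ↔ F.Adj (φ u) (φ v)) : Function.Injective φ := by
  intro u v huv
  have hN : ∀ w, (Ex m).Adj u w ↔ (Ex m).Adj v w := by
    intro w
    rw [hφ, hφ, huv]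
  obtain ⟨s, i, e⟩ := u
  obtain ⟨s', j, f⟩ := v
  have h1 : s = s' := by
    by_contra h
    have := (hN (s', j, f)).mp (Or.inl h)
    exact (Ex m).loopless.irrefl _ this
  subst h1
  have h2 := (hN (s, i, !e)).mp (Or.inr ⟨rfl, by simp⟩)
  have h3 := Ex_matched m (s, i, e) (s, i, !e) (s, j, f) rfl rfl (Or.inr ⟨rfl, by simp⟩) h2.symm
  exact h3

theorem half_le_deltaB : 1 / 2 ≤ deltaB W4 := by
  refine le_csInf ⟨2, by norm_num, 0, ?_⟩ ?_
  · intro V _ G _ _ hdeg
    rcases isEmpty_or_nonempty V with hV | hV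
    · refine ⟨V, inferInstance, G, ?_, id, Function.surjective_id, fun _ _ => Iff.rfl⟩
      simp
    · exfalso
      have h1 := G.minDegree_lt_card
      have h2 : (G.minDegree : ℝ) < Fintype.card V := by exact_mod_cast h1
      have h3 : (0 : ℝ) ≤ Fintype.card V := Nat.cast_nonneg _
      linarith
  · rintro α ⟨_, C, hC⟩
    by_contra hα
    push Not at hα
    have hm : 0 < C + 1 := Nat.succ_pos _
    have : Nonempty (Bool × Fin (C + 1) × Bool) := ⟨(true, ⟨0, hm⟩, true)⟩
    obtain ⟨W, hW, F, hc, φ, -, hφ⟩ := hC (Bool × Fin (C + 1) × Bool) (Ex (C + 1)) (Ex_max hm) (by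
      have h1 : 2 * (C + 1) ≤ (Ex (C + 1)).minDegree :=
        le_minDegree_of_forall_le_degree _ _ Ex_deg
      have h2 : (2 * (C + 1) : ℝ) ≤ (Ex (C + 1)).minDegree := by exact_mod_cast h1
      refine le_trans ?_ h2
      simp only [Fintype.card_prod, Fintype.card_bool, Fintype.card_fin]
      push_cast
      nlinarith)
    have h1 := Fintype.card_le_of_injective φ (Ex_twinfree φ hφ)
    simp only [Fintype.card_prod, Fintype.card_bool, Fintype.card_fin] at h1
    omega

theorem deltaHom_le : deltaHom W4 ≤ 49 / 100 :=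
  csInf_le ⟨0, fun _ h => h.1⟩ ⟨by norm_num, homProp⟩

theorem deltaVC_le : deltaVC W4 ≤ 49 / 100 :=
  csInf_le ⟨0, fun _ h => h.1⟩ ⟨by norm_num, vcProp⟩

end Example

end Pool.Agent.X172.Wheel
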