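import Mathlib

set_option autoImplicit false

namespace Pool.Agent.X172.FSigma

/-- `𝒰` is an open `γ`-cover of `X` (as a set of relatively open subsets of `X`). -/
def IsGamma (X : Set ℝ) (𝒰 : Set (Set ℝ)) : Prop :=
  (∀ U ∈ 𝒰, ∃ V : Set ℝ, IsOpen V ∧ U = V ∩ X) ∧ X ∉ 𝒰 ∧ X ⊆ ⋃₀ 𝒰 ∧ 𝒰.Infinite ∧
    ∀ x ∈ X, {U ∈ 𝒰 | x ∉ U}.Finite

/-- The selection principle with `γ`-covers in, `ω`-covers out; `sel` says which selections are
allowed. -/
def Sel (sel : Set (Set ℝ) → Prop) (X : Set ℝ) : Prop :=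
  ∀ 𝒰 : ℕ → Set (Set ℝ), (∀ n, IsGamma X (𝒰 n)) →
    ∃ ℱ : ℕ → Set (Set ℝ), (∀ n, sel (ℱ n) ∧ ℱ n ⊆ 𝒰 n) ∧
      X ∉ (⋃ n, ℱ n) ∧ X ⊆ ⋃₀ (⋃ n, ℱ n) ∧
      ∀ F : Finset ℝ, (↑F : Set ℝ) ⊆ X → ∃ U ∈ (⋃ n, ℱ n), (↑F : Set ℝ) ⊆ U

theorem main {sel : Set (Set ℝ) → Prop} (h1 : ∀ U, sel {U})
    (h2 : ∀ (g : Set ℝ → Set ℝ) ℱ, sel ℱ → sel (g '' ℱ)) (h3 : ∀ ℱ, sel ℱ → ℱ.Finite)
    {X Y : Set ℝ} (K : ℕ → Set ℝ) (hK : ∀ n, IsClosed (K n)) (hY : Y = X ∩ ⋃ n, K n)
    (hX : Sel sel X) : Sel sel Y := by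
  classical
  intro 𝒰 h𝒰
  -- it suffices to find, for all large `m`, a member containing a given finite set
  suffices h : ∃ ℱ : ℕ → Set (Set ℝ), (∀ n, sel (ℱ n) ∧ ℱ n ⊆ 𝒰 n) ∧
      ∀ F : Finset ℝ, (↑F : Set ℝ) ⊆ Y → ∃ n, ∃ U ∈ ℱ n, (↑F : Set ℝ) ⊆ U by
    obtain ⟨ℱ, hℱ, hω⟩ := h
    refine ⟨ℱ, hℱ, ?_, ?_, ?_⟩
    · intro h
      obtain ⟨n, hn⟩ := Set.mem_iUnion.mp h
      exact (h𝒰 n).2.1 ((hℱ n).2 hn)
    · intro x hx
      obtain ⟨n, U, hU, hxU⟩ := hω {x} (by simpa using hx)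
      exact ⟨U, Set.mem_iUnion.mpr ⟨n, hU⟩, hxU (by simp)⟩
    · intro F hF
      obtain ⟨n, U, hU, hxU⟩ := hω F hF
      exact ⟨U, Set.mem_iUnion.mpr ⟨n, hU⟩, hxU⟩
  have hYX : Y ⊆ X := by rw [hY]; exact Set.inter_subset_left
  -- the increasing closed sets
  let K' : ℕ → Set ℝ := fun n => ⋃ i ∈ Finset.range (n + 1), K i
  have hK' : ∀ n, IsClosed (K' n) := fun n => isClosed_biUnion_finset (fun i _ => hK i)
  have hK'mono : ∀ m n, m ≤ n → K' m ⊆ K' n := by
    intro m n hmn x hx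
    simp only [K', Set.mem_iUnion, Finset.mem_range] at hx ⊢
    obtain ⟨i, hi, hx⟩ := hx
    exact ⟨i, by omega, hx⟩
  have hYK : ∀ F : Finset ℝ, (↑F : Set ℝ) ⊆ Y → ∃ m, (↑F : Set ℝ) ⊆ K' m := by
    intro F hF
    have : ∀ x ∈ F, ∃ i, x ∈ K i := by
      intro x hx
      have := hF hx
      rw [hY] at this
      exact Set.mem_iUnion.mp this.2
    choose! i hi using this
    refine ⟨F.sup i, fun x hx => ?_⟩
    simp only [K', Set.mem_iUnion, Finset.mem_range]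
    exact ⟨i x, Nat.lt_succ_of_le (Finset.le_sup hx), hi x hx⟩
  have hKY : ∀ n x, x ∈ X → x ∈ K' n → x ∈ Y := by
    intro n x hx hxK
    simp only [K', Set.mem_iUnion] at hxK
    obtain ⟨i, _, hi⟩ := hxK
    rw [hY]
    exact ⟨hx, Set.mem_iUnion.mpr ⟨i, hi⟩⟩
  -- a member of every cover
  have hne : ∀ n, ∃ U, U ∈ 𝒰 n := fun n => (h𝒰 n).2.2.2.1.nonempty
  choose U₀ hU₀ using hne
  by_cases hcase : ∀ N, ∃ n ≥ N, ∃ U ∈ 𝒰 n, X ∩ K' n ⊆ U
  · -- Case A
    let G : ℕ → Set ℝ := fun n =>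
      if h : ∃ U ∈ 𝒰 n, X ∩ K' n ⊆ U then Classical.choose h else U₀ n
    have hG : ∀ n, G n ∈ 𝒰 n := by
      intro n
      simp only [G]
      split_ifs with h
      · exact (Classical.choose_spec h).1
      · exact hU₀ n
    refine ⟨fun n => {G n}, fun n => ⟨h1 _, by simpa using hG n⟩, ?_⟩
    intro F hF
    obtain ⟨m, hm⟩ := hYK F hF
    obtain ⟨n, hn, hU⟩ := hcase m
    refine ⟨n, G n, rfl, ?_⟩
    simp only [G, dif_pos hU]
    intro x hx
    exact (Classical.choose_spec hU).2 ⟨hYX (hF hx), hK'mono m n hn (hm hx)⟩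
  · -- Case B
    push Not at hcase
    obtain ⟨N, hN⟩ := hcase
    let V : Set ℝ → Set ℝ := fun U =>
      if h : ∃ V : Set ℝ, IsOpen V ∧ U = V ∩ Y then Classical.choose h else ∅
    have hV : ∀ n, ∀ U ∈ 𝒰 n, IsOpen (V U) ∧ U = V U ∩ Y := by
      intro n U hU
      have h := (h𝒰 n).1 U hU
      simp only [V, dif_pos h]
      exact Classical.choose_spec h
    let W : ℕ → Set ℝ → Set ℝ := fun n U => (V U ∪ (K' n)ᶜ) ∩ X
    have hW1 : ∀ n U x, x ∈ X → x ∉ K' n → x ∈ W n U := fun n U x hx hxK => ⟨Or.inr hxK, hx⟩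
    have hW2 : ∀ n U x, U ∈ 𝒰 n → x ∈ X → x ∈ K' n → (x ∈ W n U ↔ x ∈ U) := by
      intro n U x hU hx hxK
      have hxY := hKY n x hx hxK
      have h := (hV n U hU).2
      constructor
      · rintro ⟨h4 | h4, _⟩
        · rw [h]; exact ⟨h4, hxY⟩
        · exact absurd hxK h4
      · intro h4
        rw [h] at h4
        exact ⟨Or.inl h4.1, hx⟩
    have hgamma : ∀ n, N ≤ n → IsGamma X (W n '' 𝒰 n) := by
      intro n hn
      have hfin : ∀ x ∈ X, {U ∈ W n '' 𝒰 n | x ∉ U}.Finite := by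
        intro x hx
        by_cases hxK : x ∈ K' n
        · refine (((h𝒰 n).2.2.2.2 x (hKY n x hx hxK)).image (W n)).subset ?_
          rintro _ ⟨⟨U, hU, rfl⟩, hxW⟩
          exact ⟨U, ⟨hU, fun h => hxW ((hW2 n U x hU hx hxK).mpr h)⟩, rfl⟩
        · convert Set.finite_empty
          ext U
          simp only [Set.mem_sep_iff, Set.mem_empty_iff_false, iff_false, not_and, not_not]
          rintro ⟨U', _, rfl⟩
          exact hW1 n U' x hx hxK
      have hinf : (W n '' 𝒰 n).Infinite := by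
        intro hf
        apply (h𝒰 n).2.2.2.1
        refine Set.Finite.of_finite_fibers (W n) hf ?_
        rintro _ ⟨U, hU, rfl⟩
        obtain ⟨y, hy, hyU⟩ := Set.not_subset.mp (hN n hn U hU)
        refine ((h𝒰 n).2.2.2.2 y (hKY n y hy.1 hy.2)).subset ?_
        rintro U' ⟨hU', hUU'⟩
        refine ⟨hU', fun h => hyU ?_⟩
        rw [← hW2 n U y hU hy.1 hy.2]
        have h5 : W n U' = W n U := hUU'
        rw [← h5, hW2 n U' y hU' hy.1 hy.2]
        exact h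
      refine ⟨?_, ?_, ?_, hinf, hfin⟩
      · rintro _ ⟨U, hU, rfl⟩
        exact ⟨V U ∪ (K' n)ᶜ, (hV n U hU).1.union (hK' n).isOpen_compl, rfl⟩
      · rintro ⟨U, hU, hWX⟩
        obtain ⟨y, hy, hyU⟩ := Set.not_subset.mp (hN n hn U hU)
        apply hyU
        rw [← hW2 n U y hU hy.1 hy.2, hWX]
        exact hy.1
      · intro x hx
        obtain ⟨U, hU, hxU⟩ := (hinf.sdiff (hfin x hx)).nonempty
        refine ⟨U, hU, ?_⟩
        by_contra h
        exact hxU ⟨hU, h⟩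
    obtain ⟨ℱ', hℱ', hXn, -, hω⟩ := hX (fun n => W (n + N) '' 𝒰 (n + N))
      (fun n => hgamma _ (Nat.le_add_left _ _))
    -- representatives
    let g : ℕ → Set ℝ → Set ℝ := fun n A =>
      if h : ∃ U ∈ 𝒰 n, W n U = A then Classical.choose h else ∅
    have hg : ∀ n A, A ∈ W n '' 𝒰 n → g n A ∈ 𝒰 n ∧ W n (g n A) = A := by
      intro n A hA
      have h : ∃ U ∈ 𝒰 n, W n U = A := hA
      simp only [g, dif_pos h]
      exact Classical.choose_spec h
    refine ⟨fun n => if N ≤ n then g n '' ℱ' (n - N) else {U₀ n}, ?_, ?_⟩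
    · intro n
      by_cases hn : N ≤ n
      · simp only [if_pos hn]
        refine ⟨h2 _ _ (hℱ' _).1, ?_⟩
        rintro _ ⟨A, hA, rfl⟩
        have := (hℱ' (n - N)).2 hA
        rw [Nat.sub_add_cancel hn] at this
        exact (hg n A this).1
      · simp only [if_neg hn]
        exact ⟨h1 _, by simpa using hU₀ n⟩
    · intro F hF
      obtain ⟨m, hm⟩ := hYK F hF
      -- the members chosen early
      have hBfin : (⋃ j ∈ Finset.range m, ℱ' j).Finite :=
        Set.Finite.biUnion (Finset.finite_toSet _) (fun j _ => h3 _ (hℱ' j).1)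
      have hBx : ∀ A ∈ (⋃ j ∈ Finset.range m, ℱ' j), ∃ x ∈ X, x ∉ A := by
        intro A hA
        simp only [Set.mem_iUnion] at hA
        obtain ⟨j, _, hA⟩ := hA
        have h4 := (hℱ' j).2 hA
        have h5 : A ≠ X := by
          rintro rfl
          exact hXn (Set.mem_iUnion.mpr ⟨j, hA⟩)
        obtain ⟨U, hU, rfl⟩ := h4
        by_contra hcon
        push Not at hcon
        exact h5 (Set.Subset.antisymm Set.inter_subset_right hcon)
      choose! p hp using hBx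
      obtain ⟨A, hA, hFA⟩ := hω (F ∪ hBfin.toFinset.image p) (by
        intro x hx
        rw [Finset.coe_union, Set.mem_union] at hx
        rcases hx with hx | hx
        · exact hYX (hF hx)
        · simp only [Finset.coe_image, Set.Finite.coe_toFinset, Set.mem_image] at hx
          obtain ⟨A, hA, rfl⟩ := hx
          exact (hp A hA).1)
      obtain ⟨j, hj⟩ := Set.mem_iUnion.mp hA
      have hjm : m ≤ j := by
        by_contra hcon
        push Not at hcon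
        have hAB : A ∈ (⋃ j ∈ Finset.range m, ℱ' j) := by
          simp only [Set.mem_iUnion]
          exact ⟨j, Finset.mem_range.mpr hcon, hj⟩
        refine (hp A hAB).2 (hFA ?_)
        rw [Finset.coe_union, Set.mem_union]
        right
        simp only [Finset.coe_image, Set.Finite.coe_toFinset, Set.mem_image]
        exact ⟨A, hAB, rfl⟩
      refine ⟨j + N, g (j + N) A, ?_, ?_⟩
      · simp only [if_pos (Nat.le_add_left N j), Nat.add_sub_cancel]
        exact ⟨A, hj, rfl⟩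
      · intro x hx
        have h4 := hg (j + N) A ((hℱ' j).2 hj)
        have hxX := hYX (hF hx)
        have hxK : x ∈ K' (j + N) := hK'mono m _ (by omega) (hm hx)
        rw [← hW2 (j + N) _ x h4.1 hxX hxK, h4.2]
        apply hFA
        rw [Finset.coe_union]
        exact Or.inl hx

end Pool.Agent.X172.FSigma
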