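import Mathlib

set_option autoImplicit false

namespace Pool.Agent.X172.Lam

open Finset Matrix

variable {V : Type} [Fintype V] [DecidableEq V]

/-- The largest (real) eigenvalue of a matrix. -/
noncomputable def lam1 (M : Matrix V V ℝ) : ℝ := sSup (spectrum ℝ M)

theorem lam1_eq {M : Matrix V V ℝ} (hM : M.IsHermitian) : lam1 M = ⨆ i, hM.eigenvalues i := by
  unfold lam1
  rw [hM.spectrum_real_eq_range_eigenvalues]
  rfl

theorem spectral {M : Matrix V V ℝ} (hM : M.IsHermitian) (i k : V) :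
    M i k = ∑ j, hM.eigenvalues j * (hM.eigenvectorBasis j i * hM.eigenvectorBasis j k) := by
  have h := hM.spectral_theorem
  have h2 := congrFun (congrFun h i) k
  rw [h2, Unitary.conjStarAlgAut_apply, Matrix.mul_apply]
  refine sum_congr rfl fun j _ => ?_
  rw [Matrix.mul_diagonal, star_apply, Matrix.IsHermitian.eigenvectorUnitary_apply,
    Matrix.IsHermitian.eigenvectorUnitary_apply]
  simp only [Function.comp, RCLike.ofReal_real_eq_id, id, star_trivial]
  ring

theorem form_eq {M : Matrix V V ℝ} (hM : M.IsHermitian) (u : V → ℝ) :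
    ∑ i, ∑ k, u i * M i k * u k =
      ∑ j, hM.eigenvalues j * (∑ i, u i * hM.eigenvectorBasis j i) ^ 2 := by
  simp_rw [spectral hM, mul_sum, sum_mul]
  rw [sum_congr rfl fun i _ => sum_comm, sum_comm]
  refine sum_congr rfl fun j _ => ?_
  rw [sq, sum_mul_sum, mul_sum]
  refine sum_congr rfl fun i _ => ?_
  rw [mul_sum]
  refine sum_congr rfl fun k _ => ?_
  ring

theorem parseval {M : Matrix V V ℝ} (hM : M.IsHermitian) (u : V → ℝ) :
    ∑ j, (∑ i, u i * hM.eigenvectorBasis j i) ^ 2 = ∑ i, u i ^ 2 := by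
  have h3 := hM.eigenvectorBasis.sum_sq_norm_inner_right (WithLp.toLp 2 u)
  have h4 : ‖(WithLp.toLp 2 u : EuclideanSpace ℝ V)‖ ^ 2 = ∑ i, u i ^ 2 := by
    rw [EuclideanSpace.norm_sq_eq]
    simp
  rw [h4] at h3
  rw [← h3]
  refine sum_congr rfl fun j _ => ?_
  rw [Real.norm_eq_abs, sq_abs, PiLp.inner_apply]
  congr 1

/-- The Rayleigh quotient bound. -/
theorem rayleigh {M : Matrix V V ℝ} (hM : M.IsHermitian) (u : V → ℝ) :
    ∑ i, ∑ k, u i * M i k * u k ≤ lam1 M * ∑ i, u i ^ 2 := by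
  rw [form_eq hM, ← parseval hM u, mul_sum, lam1_eq hM]
  refine sum_le_sum fun j _ => mul_le_mul_of_nonneg_right ?_ (sq_nonneg _)
  exact le_ciSup (Set.finite_range _).bddAbove j

theorem lam1_le {M : Matrix V V ℝ} (hM : M.IsHermitian) [Nonempty V] {c : ℝ}
    (h : ∀ u : V → ℝ, ∑ i, ∑ k, u i * M i k * u k ≤ c * ∑ i, u i ^ 2) : lam1 M ≤ c := by
  rw [lam1_eq hM]
  apply ciSup_le
  intro j
  have h1 := h (fun x => hM.eigenvectorBasis j x)
  have h2 : ∑ x, (hM.eigenvectorBasis j x) ^ 2 = 1 := by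
    have h3 : ‖hM.eigenvectorBasis j‖ ^ 2 = 1 := by
      rw [hM.eigenvectorBasis.orthonormal.1 j]; norm_num
    rw [EuclideanSpace.norm_sq_eq] at h3
    simpa using h3
  rw [form_eq hM, h2, sum_eq_single j] at h1
  · have h5 : ∑ x, hM.eigenvectorBasis j x * hM.eigenvectorBasis j x = 1 := by
      rw [← h2]
      exact sum_congr rfl fun x _ => (sq _).symm
    rw [h5] at h1
    linarith
  · intro k _ hk
    have h5 : inner ℝ (hM.eigenvectorBasis k) (hM.eigenvectorBasis j) = 0 :=
      hM.eigenvectorBasis.orthonormal.2 hk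
    rw [PiLp.inner_apply] at h5
    have h6 : ∑ x, hM.eigenvectorBasis j x * hM.eigenvectorBasis k x = 0 := by
      rw [← h5]
      refine sum_congr rfl fun i _ => ?_
      simp
    rw [h6]
    simp
  · intro h'; exact absurd (mem_univ _) h'

end Pool.Agent.X172.Lam
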