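import Mathlib

set_option autoImplicit false

/-!
# Sums of roots of unity whose square is an integer
-/

namespace Pool.Agent.X172.Corr

open Finset

/-- the ring generated by the `N`-th roots of unity -/
noncomputable def R (N : ℕ) : Subalgebra ℤ ℂ := Algebra.adjoin ℤ {z : ℂ | z ^ N = 1}

lemma R_int {N : ℕ} (hN : 0 < N) {w : ℂ} (hw : w ∈ R N) : IsIntegral ℤ w := by
  refine Algebra.adjoin_induction (p := fun x _ => IsIntegral ℤ x) ?_ ?_ ?_ ?_ hw
  · intro z hz
    exact IsIntegral.of_pow hN (by rw [show z ^ N = 1 from hz]; exact isIntegral_one)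
  · intro r; exact isIntegral_algebraMap
  · intro x y _ _ hx hy; exact hx.add hy
  · intro x y _ _ hx hy; exact hx.mul hy

/-- a rational number which is integral is an integer -/
lemma rat_int {q : ℚ} (h : IsIntegral ℤ (q : ℂ)) : ∃ t : ℤ, (t : ℚ) = q := by
  have h1 : IsIntegral ℤ q := by
    have h2 : IsIntegral ℤ (algebraMap ℚ ℂ q) := by simpa using h
    exact (isIntegral_algebraMap_iff (algebraMap ℚ ℂ).injective).1 h2
  obtain ⟨t, ht⟩ := IsIntegrallyClosed.isIntegral_iff.1 h1
  exact ⟨t, by simpa using ht⟩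

/-- the Frobenius congruence -/
lemma frob {N p f : ℕ} (hp : p.Prime)
    (hgen : ∀ z : ℂ, z ^ N = 1 → ∃ r ∈ R N, z ^ (p ^ f) = z + p * r) {w : ℂ} (hw : w ∈ R N) :
    ∃ r ∈ R N, w ^ (p ^ f) = w + p * r := by
  refine Algebra.adjoin_induction
    (p := fun x _ => ∃ r ∈ R N, x ^ (p ^ f) = x + p * r) ?_ ?_ ?_ ?_ hw
  · intro z hz; exact hgen z hz
  · intro a
    have h1 : (a : ZMod p) ^ (p ^ f) = a := by
      haveI := Fact.mk hp
      exact ZMod.pow_card_pow _
    have h2 : ((a ^ (p ^ f) - a : ℤ) : ZMod p) = 0 := by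
      push_cast
      rw [h1, sub_self]
    rw [ZMod.intCast_zmod_eq_zero_iff_dvd] at h2
    obtain ⟨c, hc⟩ := h2
    refine ⟨algebraMap ℤ ℂ c, Subalgebra.algebraMap_mem _ _, ?_⟩
    have h3 : a ^ (p ^ f) = a + p * c := by linarith
    have h4 := congrArg (fun x : ℤ => (x : ℂ)) h3
    simp only [algebraMap_int_eq, eq_intCast]
    push_cast at h4
    exact h4
  · intro x y hx hy hx' hy'
    obtain ⟨r, hr, h1⟩ := hx'
    obtain ⟨s, hs, h2⟩ := hy'
    have key : ∃ t ∈ R N, (x + y) ^ (p ^ f) = x ^ (p ^ f) + y ^ (p ^ f) + p * t := by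
      let x' : R N := ⟨x, hx⟩
      let y' : R N := ⟨y, hy⟩
      have h := add_pow_prime_pow_eq hp x' y' f
      have h' := congrArg (fun a : R N => (a : ℂ)) h
      refine ⟨_, SetLike.coe_mem (x' * y' * ∑ k ∈ Ioo 0 (p ^ f), x' ^ (k - 1) *
        y' ^ (p ^ f - k - 1) * (((p ^ f).choose k / p : ℕ) : R N)), ?_⟩
      simp only [x', y'] at h' ⊢
      push_cast at h' ⊢
      rw [h']
      ring
    obtain ⟨t, ht, h3⟩ := key
    refine ⟨r + s + t, Subalgebra.add_mem _ (Subalgebra.add_mem _ hr hs) ht, ?_⟩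
    rw [h3, h1, h2]; ring
  · intro x y hx hy hx' hy'
    obtain ⟨r, hr, h1⟩ := hx'
    obtain ⟨s, hs, h2⟩ := hy'
    have hpm : ((p : ℕ) : ℂ) ∈ R N := by
      have := Subalgebra.algebraMap_mem (R N) ((p : ℕ) : ℤ)
      simpa using this
    refine ⟨x * s + y * r + p * (r * s), ?_, ?_⟩
    · exact Subalgebra.add_mem _ (Subalgebra.add_mem _ (Subalgebra.mul_mem _ hx hs)
        (Subalgebra.mul_mem _ hy hr)) (Subalgebra.mul_mem _ hpm (Subalgebra.mul_mem _ hr hs))
    · rw [mul_pow, h1, h2]; ring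

/-- descent -/
lemma descent {N p f : ℕ} (hN : 0 < N) (hp : p.Prime) (hf : 1 ≤ f)
    (hgen : ∀ z : ℂ, z ^ N = 1 → ∃ r ∈ R N, z ^ (p ^ f) = z + p * r) :
    ∀ (n : ℕ) (t : ℤ), t ≠ 0 → t.natAbs ≤ n → ∀ w ∈ R N, w ^ 2 = (t : ℂ) →
      Even (padicValInt p t) := by
  haveI := Fact.mk hp
  intro n
  induction n with
  | zero =>
    intro t ht h
    exact absurd (Int.natAbs_eq_zero.1 (Nat.le_zero.1 h)) ht
  | succ n ih =>
    intro t ht hn w hw hwt
    by_cases hd : (p : ℤ) ∣ t
    · obtain ⟨t', rfl⟩ := hd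
      obtain ⟨r, hr, h1⟩ := frob hp hgen hw
      have hq : 2 ≤ p ^ f := by
        calc 2 ≤ p := hp.two_le
          _ = p ^ 1 := (pow_one p).symm
          _ ≤ p ^ f := Nat.pow_le_pow_right hp.pos hf
      obtain ⟨e, he⟩ : ∃ e, p ^ f = e + 2 := ⟨p ^ f - 2, by omega⟩
      have hpc : (p : ℂ) ≠ 0 := by exact_mod_cast hp.ne_zero
      set u : ℂ := w ^ e * t' - r with hu
      have hu1 : w = p * u := by
        rw [he, pow_add, hwt] at h1
        push_cast at h1
        rw [hu]
        linear_combination -h1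
      have htm : ((t' : ℤ) : ℂ) ∈ R N := by
        have := Subalgebra.algebraMap_mem (R N) (t' : ℤ)
        simpa using this
      have huR : u ∈ R N := Subalgebra.sub_mem _
        (Subalgebra.mul_mem _ (Subalgebra.pow_mem _ hw e) htm) hr
      have hu2 : u ^ 2 = ((((t' : ℚ) / p) : ℚ) : ℂ) := by
        rw [hu1] at hwt
        push_cast at hwt ⊢
        field_simp
        have : (p : ℂ) * (p * u ^ 2) = p * t' := by linear_combination hwt
        have h5 := mul_left_cancel₀ hpc this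
        linear_combination h5
      obtain ⟨s, hs⟩ := rat_int (q := (t' : ℚ) / p) (by
        rw [← hu2]; exact (R_int hN huR).pow 2)
      have hp0 : (p : ℚ) ≠ 0 := by exact_mod_cast hp.ne_zero
      have hts : t' = p * s := by
        have : (t' : ℚ) = p * s := by rw [hs]; field_simp
        exact_mod_cast this
      subst hts
      have hs0 : s ≠ 0 := by
        rintro rfl
        simp at ht
      have hus : u ^ 2 = (s : ℂ) := by
        rw [hu2, ← hs]; push_cast; rfl
      have hlt : s.natAbs ≤ n := by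
        have h6 : ((p : ℤ) * (p * s)).natAbs = p * (p * s.natAbs) := by
          rw [Int.natAbs_mul, Int.natAbs_mul, Int.natAbs_natCast]
        rw [h6] at hn
        have h7 : 0 < s.natAbs := Int.natAbs_pos.2 hs0
        have h8 : 2 * s.natAbs ≤ p * (p * s.natAbs) := by
          calc 2 * s.natAbs ≤ p * s.natAbs := Nat.mul_le_mul_right _ hp.two_le
            _ ≤ p * (p * s.natAbs) := Nat.mul_le_mul_left _ (Nat.le_mul_of_pos_left _ hp.pos)
        omega
      have hev := ih s hs0 hlt u huR hus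
      have hpz : (p : ℤ) ≠ 0 := by exact_mod_cast hp.ne_zero
      rw [padicValInt.mul hpz (mul_ne_zero hpz hs0), padicValInt.mul hpz hs0,
        padicValInt_self]
      obtain ⟨c, hc⟩ := hev
      exact ⟨c + 1, by omega⟩
    · have : padicValInt p t = 0 := padicValInt.eq_zero_of_not_dvd hd
      rw [this]; exact Even.zero

/-- the generators satisfy the Frobenius congruence if `p` does not divide `m`, `N = 2 m` -/
lemma gen_ok {m p : ℕ} (hm : 0 < m) (hp : p.Prime) (hpm : ¬ p ∣ m) :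
    ∃ f : ℕ, 1 ≤ f ∧ ∀ z : ℂ, z ^ (2 * m) = 1 → ∃ r ∈ R (2 * m), z ^ (p ^ f) = z + p * r := by
  have hcop : Nat.Coprime p m := (Nat.Prime.coprime_iff_not_dvd hp).2 hpm
  rcases hp.eq_two_or_odd' with rfl | hodd
  · refine ⟨m.totient, Nat.totient_pos.2 hm, ?_⟩
    intro z hz
    have h1 : 2 ^ m.totient ≡ 1 [MOD m] := Nat.ModEq.pow_totient hcop
    have hpow : ∀ y : ℂ, y ^ m = 1 → y ^ (2 ^ m.totient) = y := by
      intro y hy
      have h2 : 1 ≤ 2 ^ m.totient := Nat.one_le_two_pow
      obtain ⟨c, hc⟩ := (Nat.modEq_iff_dvd' h2).1 h1.symm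
      have h3 : 2 ^ m.totient = m * c + 1 := by omega
      rw [h3, pow_add, pow_mul, hy, one_pow, one_mul, pow_one]
    have hz2 : (z ^ m) ^ 2 = 1 := by rw [← pow_mul, mul_comm]; exact hz
    have h7 : (z ^ m - 1) * (z ^ m + 1) = 0 := by linear_combination hz2
    rcases mul_eq_zero.1 h7 with h | h
    all_goals first | (replace h : z ^ m = 1 := by linear_combination h) | (replace h : z ^ m = -1 := by linear_combination h)
    · refine ⟨0, Subalgebra.zero_mem _, ?_⟩
      rw [hpow z h, mul_zero, add_zero]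
    · have hmo : Odd m := by
        rcases Nat.even_or_odd m with he | ho
        · exact absurd he.two_dvd hpm
        · exact ho
      have h4 : (-z) ^ m = 1 := by rw [hmo.neg_pow, h, neg_neg]
      have hzR : z ∈ R (2 * m) := Algebra.subset_adjoin hz
      refine ⟨-z, Subalgebra.neg_mem _ hzR, ?_⟩
      have h5 := hpow (-z) h4
      have h6 : Even (2 ^ m.totient) := by
        refine (Nat.even_pow.2 ⟨even_two, (Nat.totient_pos.2 hm).ne'⟩)
      rw [h6.neg_pow] at h5
      rw [h5]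
      push_cast
      ring
  · refine ⟨(2 * m).totient, Nat.totient_pos.2 (by omega), ?_⟩
    intro z hz
    have hc2 : Nat.Coprime p (2 * m) := by
      refine Nat.Coprime.mul_right ?_ hcop
      exact (Nat.coprime_primes hp Nat.prime_two).2 (by rintro rfl; exact absurd hodd (by decide))
    have h1 : p ^ (2 * m).totient ≡ 1 [MOD (2 * m)] := Nat.ModEq.pow_totient hc2
    have h2 : 1 ≤ p ^ (2 * m).totient := Nat.one_le_pow _ _ hp.pos
    obtain ⟨c, hc⟩ := (Nat.modEq_iff_dvd' h2).1 h1.symm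
    have h3 : p ^ (2 * m).totient = (2 * m) * c + 1 := by omega
    refine ⟨0, Subalgebra.zero_mem _, ?_⟩
    rw [h3, pow_add, pow_mul, hz, one_pow, one_mul, pow_one, mul_zero, add_zero]

end Pool.Agent.X172.Corr
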