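import Mathlib
import Pool.Agent.X172.CorrRing
import Pool.Agent.H951R4.OD.Design

set_option autoImplicit false

/-!
# Correlations of symmetric designs
-/

namespace Pool.Agent.X172.Corr

open Finset Matrix

/-- abstract form: the trace of `C` -/
lemma trace_mem {v m : ℕ} (hv : 0 < v) (hm : 0 < m) (C Q J : Matrix (Fin v) (Fin v) ℂ)
    (k s l : ℂ) (hs : s ≠ 0) (hJJ : J * J = (v : ℂ) • J) (hCJ : C * J = k • J)
    (hJC : J * C = k • J) (hQJ : Q * J = J) (hJQ : J * Q = J) (hQC : Q * C = C * Q)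
    (hC : C * C * Q = (s ^ 2) • (1 : Matrix (Fin v) (Fin v) ℂ) + l • J) (hQm : Q ^ m = 1)
    (hk : k ^ 2 = s ^ 2 + l * v) (htJ : J.trace = v) :
    (C.trace - k) / s ∈ R (2 * m) := by
  have hvc : (v : ℂ) ≠ 0 := by exact_mod_cast hv.ne'
  set c : ℂ := (s - k) / v with hc
  have hcv : c * v = s - k := by rw [hc]; field_simp
  set D : Matrix (Fin v) (Fin v) ℂ := C + c • J with hD
  have hDD : D * D = C * C - l • J := by
    rw [hD]
    simp only [Matrix.add_mul, Matrix.mul_add, Matrix.smul_mul, Matrix.mul_smul, hCJ, hJC, hJJ,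
      smul_smul, smul_add]
    have h1 : c * k + (c * k + c * (c * v)) = -l := by
      rw [hcv]
      have : c * (s + k) = -l := by
        rw [hc]
        field_simp
        linear_combination -hk
      linear_combination this
    have h2 : C * C + (c * k) • J + ((c * k) • J + (c * (c * ↑v)) • J)
        = C * C + (c * k + (c * k + c * (c * v))) • J := by
      rw [add_smul, add_smul]; abel
    rw [h2, h1, neg_smul, sub_eq_add_neg]
  have hDDQ : D * D * Q = (s ^ 2) • (1 : Matrix (Fin v) (Fin v) ℂ) := by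
    rw [hDD, Matrix.sub_mul, hC, Matrix.smul_mul, hJQ]
    abel
  have hQD : Q * D = D * Q := by
    rw [hD, Matrix.mul_add, Matrix.add_mul, hQC, Matrix.mul_smul, Matrix.smul_mul, hQJ, hJQ]
  have hDm : D ^ (2 * m) = (s ^ (2 * m)) • (1 : Matrix (Fin v) (Fin v) ℂ) := by
    have hcomm : Commute (D * D) Q := by
      show D * D * Q = Q * (D * D)
      rw [← Matrix.mul_assoc Q D D, hQD, Matrix.mul_assoc D Q D, hQD, ← Matrix.mul_assoc]
    have h1 : (D * D * Q) ^ m = (D * D) ^ m * Q ^ m := hcomm.mul_pow m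
    rw [hQm, mul_one, hDDQ] at h1
    rw [pow_mul, pow_two, ← h1, smul_pow, one_pow, ← pow_mul]
  -- the roots of the characteristic polynomial
  have hroot : ∀ μ ∈ D.charpoly.roots, μ ^ (2 * m) = s ^ (2 * m) := by
    intro μ hμ
    have h1 : D.charpoly.IsRoot μ := Polynomial.isRoot_of_mem_roots hμ
    have h2 : μ ∈ spectrum ℂ D := by
      rw [Matrix.mem_spectrum_iff_isRoot_charpoly]; exact h1
    have h3 : μ ^ (2 * m) ∈ spectrum ℂ (D ^ (2 * m)) := spectrum.pow_mem_pow D (2 * m) h2
    rw [hDm] at h3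
    haveI : Nonempty (Fin v) := ⟨⟨0, hv⟩⟩
    have h4 : spectrum ℂ ((s ^ (2 * m)) • (1 : Matrix (Fin v) (Fin v) ℂ)) = {s ^ (2 * m)} := by
      have := spectrum.scalar_eq (𝕜 := ℂ) (A := Matrix (Fin v) (Fin v) ℂ) (s ^ (2 * m))
      rw [Algebra.algebraMap_eq_smul_one] at this
      exact this
    rw [h4] at h3
    exact h3
  have htr : D.trace = D.charpoly.roots.sum := Matrix.trace_eq_sum_roots_charpoly D
  have htr2 : D.trace = C.trace + (s - k) := by
    rw [hD, Matrix.trace_add, Matrix.trace_smul, htJ, smul_eq_mul, hcv]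
  have h5 : D.charpoly.roots.sum / s ∈ R (2 * m) := by
    have h6 : D.charpoly.roots.sum / s = (D.charpoly.roots.map (fun μ => μ / s)).sum := by
      rw [Multiset.sum_map_div]
      simp
    rw [h6]
    refine multiset_sum_mem _ ?_
    intro z hz
    rw [Multiset.mem_map] at hz
    obtain ⟨μ, hμ, rfl⟩ := hz
    refine Algebra.subset_adjoin ?_
    show (μ / s) ^ (2 * m) = 1
    rw [div_pow, hroot μ hμ, div_self (pow_ne_zero _ hs)]
  have h7 : (C.trace - k) / s = D.charpoly.roots.sum / s - 1 := by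
    rw [← htr, htr2]
    field_simp
    ring
  rw [h7]
  exact Subalgebra.sub_mem _ h5 (Subalgebra.one_mem _)

end Pool.Agent.X172.Corr
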