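import Mathlib
import Pool.Agent.X172.CorrMat

set_option autoImplicit false

/-!
# Correlations of symmetric designs: the number of absolute points
-/

namespace Pool.Agent.X172.Corr

open Finset Matrix

/-- the matrix of a correlation -/
noncomputable def cm {v : ℕ} (B : Fin v → Finset (Fin v)) (p : Equiv.Perm (Fin v)) :
    Matrix (Fin v) (Fin v) ℂ := Matrix.of fun x y => if y ∈ B (p x) then 1 else 0

/-- the permutation matrix -/
noncomputable def qm {v : ℕ} (τ : Equiv.Perm (Fin v)) : Matrix (Fin v) (Fin v) ℂ :=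
  Matrix.of fun z x => if z = τ x then 1 else 0

/-- the matrix of ones -/
noncomputable def jm (v : ℕ) : Matrix (Fin v) (Fin v) ℂ := Matrix.of fun _ _ => 1

lemma qm_mul {v : ℕ} (σ τ : Equiv.Perm (Fin v)) : qm σ * qm τ = qm (σ * τ) := by
  ext z x
  simp only [qm, Matrix.mul_apply, Matrix.of_apply]
  rw [Finset.sum_eq_single (τ x)]
  · by_cases h : z = σ (τ x)
    · rw [if_pos h, if_pos rfl, if_pos (show z = (σ * τ) x from h), mul_one]
    · rw [if_neg h, if_neg (show ¬ z = (σ * τ) x from h), zero_mul]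
  · intro y _ hy
    rw [if_neg hy, mul_zero]
  · intro h; exact absurd (Finset.mem_univ _) h

lemma qm_one {v : ℕ} : qm (1 : Equiv.Perm (Fin v)) = 1 := by
  ext z x
  by_cases h : z = x
  · subst h
    rw [Matrix.one_apply_eq]
    exact if_pos rfl
  · rw [Matrix.one_apply_ne h]
    exact if_neg h

lemma qm_pow {v : ℕ} (τ : Equiv.Perm (Fin v)) (m : ℕ) : (qm τ) ^ m = qm (τ ^ m) := by
  induction m with
  | zero => rw [pow_zero, pow_zero, qm_one]
  | succ m ih => rw [pow_succ, pow_succ, ih, qm_mul]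

/-- the trace divided by the square root of the order is a sum of roots of unity -/
lemma design_mem {v k lam : ℕ} (hv : 2 ≤ v) (hlam : 1 ≤ lam) (hkv : k < v)
    {B : Fin v → Finset (Fin v)} (hk : ∀ i, (B i).card = k)
    (hp : ∀ x y : Fin v, x ≠ y →
      (Finset.univ.filter (fun i => x ∈ B i ∧ y ∈ B i)).card = lam)
    (p b : Equiv.Perm (Fin v)) (hcorr : ∀ x i, x ∈ B i ↔ b i ∈ B (p x)) :
    lam < k ∧ ∃ s : ℂ, s ^ 2 = ((k - lam : ℤ) : ℂ) ∧ s ≠ 0 ∧
      (((univ.filter fun x => x ∈ B (p x)).card : ℂ) - k) / s ∈ R (2 * orderOf (b * p)) := by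
  classical
  obtain ⟨hrep, hcount⟩ := Pool.Agent.H951R4.OD.repl v k lam hv hlam B hk hp
  obtain ⟨hlk, -, -⟩ := Pool.Agent.H951R4.OD.design_facts hv hlam hkv hk hp
  refine ⟨hlk, ?_⟩
  obtain ⟨s, hs⟩ := IsAlgClosed.exists_pow_nat_eq (((k - lam : ℤ) : ℂ)) (n := 2) (by norm_num)
  have hs0 : s ≠ 0 := by
    rintro rfl
    have h1 : ((k - lam : ℤ) : ℂ) = 0 := by rw [← hs]; norm_num
    have h2 : (k - lam : ℤ) = 0 := by exact_mod_cast h1
    omega
  refine ⟨s, hs, hs0, ?_⟩
  set τ : Equiv.Perm (Fin v) := b * p with hτ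
  have hτa : ∀ x, τ x = b (p x) := fun x => rfl
  -- incidence
  have hinc : ∀ x y, y ∈ B (p x) ↔ τ x ∈ B (p y) := by
    intro x y
    rw [hcorr y (p x)]
    rfl
  -- entries
  have hcol : ∀ y, ∑ x, (if y ∈ B (p x) then (1 : ℂ) else 0) = k := by
    intro y
    rw [Equiv.sum_comp p (fun i => if y ∈ B i then (1 : ℂ) else 0), ← hrep y, Finset.card_filter]
    push_cast
    rfl
  have hrow : ∀ x, ∑ y, (if y ∈ B (p x) then (1 : ℂ) else 0) = k := by
    intro x
    rw [← hk (p x), ← Finset.sum_filter]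
    simp
  have hJJ : jm v * jm v = (v : ℂ) • jm v := by
    ext x y; simp [jm, Matrix.mul_apply]
  have hCJ : cm B p * jm v = (k : ℂ) • jm v := by
    ext x y
    simp only [cm, jm, Matrix.mul_apply, Matrix.of_apply, mul_one, Matrix.smul_apply, smul_eq_mul]
    exact hrow x
  have hJC : jm v * cm B p = (k : ℂ) • jm v := by
    ext x y
    simp only [cm, jm, Matrix.mul_apply, Matrix.of_apply, one_mul, mul_one, Matrix.smul_apply,
      smul_eq_mul]
    exact hcol y
  have hQJ : qm τ * jm v = jm v := by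
    ext x y
    simp only [qm, jm, Matrix.mul_apply, Matrix.of_apply, mul_one]
    rw [Finset.sum_eq_single (τ.symm x)]
    · simp
    · intro z _ hz
      rw [if_neg]
      rintro rfl
      exact hz (by simp)
    · intro h; exact absurd (Finset.mem_univ _) h
  have hJQ : jm v * qm τ = jm v := by
    ext x y
    simp only [qm, jm, Matrix.mul_apply, Matrix.of_apply, one_mul]
    rw [Finset.sum_eq_single (τ y)]
    · simp
    · intro z _ hz
      rw [if_neg hz]
    · intro h; exact absurd (Finset.mem_univ _) h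
  -- right multiplication by `qm τ`
  have hMQ : ∀ (M : Matrix (Fin v) (Fin v) ℂ) (x y : Fin v), (M * qm τ) x y = M x (τ y) := by
    intro M x y
    simp only [qm, Matrix.mul_apply, Matrix.of_apply]
    rw [Finset.sum_eq_single (τ y)]
    · simp
    · intro z _ hz
      rw [if_neg hz, mul_zero]
    · intro h; exact absurd (Finset.mem_univ _) h
  have hQM : ∀ (M : Matrix (Fin v) (Fin v) ℂ) (x y : Fin v), (qm τ * M) (τ x) y = M x y := by
    intro M x y
    simp only [qm, Matrix.mul_apply, Matrix.of_apply]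
    rw [Finset.sum_eq_single x]
    · simp
    · intro z _ hz
      rw [if_neg, zero_mul]
      intro h
      exact hz (τ.injective h).symm
    · intro h; exact absurd (Finset.mem_univ _) h
  have hQC : qm τ * cm B p = cm B p * qm τ := by
    ext x y
    obtain ⟨x, rfl⟩ := τ.surjective x
    rw [hQM, hMQ]
    simp only [cm, Matrix.of_apply]
    have h1 : y ∈ B (p x) ↔ τ y ∈ B (p (τ x)) := by
      rw [hinc x y, hinc y (τ x)]
    by_cases h : y ∈ B (p x)
    · rw [if_pos h, if_pos (h1.1 h)]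
    · rw [if_neg h, if_neg (fun h' => h (h1.2 h'))]
  have hCT : cm B p * qm τ = (cm B p)ᵀ := by
    ext x y
    rw [hMQ]
    simp only [cm, Matrix.of_apply, Matrix.transpose_apply]
    by_cases h : x ∈ B (p y)
    · rw [if_pos h, if_pos ((hinc y x).1 h)]
    · rw [if_neg h, if_neg (fun h' => h ((hinc y x).2 h'))]
  have hC : cm B p * cm B p * qm τ = (s ^ 2) • (1 : Matrix (Fin v) (Fin v) ℂ) + (lam : ℂ) • jm v := by
    rw [Matrix.mul_assoc, ← hQC, ← Matrix.mul_assoc, hCT]
    ext x y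
    simp only [Matrix.mul_apply, Matrix.transpose_apply, cm, Matrix.of_apply, Matrix.add_apply,
      Matrix.smul_apply, smul_eq_mul, jm, mul_one]
    have h1 : ∑ z, (if x ∈ B (p z) then (1 : ℂ) else 0) * (if y ∈ B (p z) then (1 : ℂ) else 0)
        = ((univ.filter fun i => x ∈ B i ∧ y ∈ B i).card : ℂ) := by
      rw [Equiv.sum_comp p (fun i => (if x ∈ B i then (1 : ℂ) else 0) *
        (if y ∈ B i then (1 : ℂ) else 0)), Finset.card_filter]
      push_cast
      refine Finset.sum_congr rfl fun i _ => ?_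
      by_cases hx : x ∈ B i <;> by_cases hy : y ∈ B i <;> simp [hx, hy]
    rw [h1]
    by_cases hxy : x = y
    · subst hxy
      rw [Matrix.one_apply_eq, hs]
      have : (univ.filter fun i => x ∈ B i ∧ x ∈ B i) = univ.filter fun i => x ∈ B i := by
        ext i; simp
      rw [this, hrep x]
      push_cast
      ring
    · rw [Matrix.one_apply_ne hxy, hp x y hxy]
      ring
  have hQm : (qm τ) ^ (orderOf τ) = 1 := by
    rw [qm_pow, pow_orderOf_eq_one, qm_one]
  have hm : 0 < orderOf τ := orderOf_pos τ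
  have hkk : (k : ℂ) ^ 2 = s ^ 2 + (lam : ℂ) * v := by
    rw [hs]
    have h1 : (k : ℤ) * k = lam * (v - 1) + k := by
      have : ((k * k : ℕ) : ℤ) = ((lam * (v - 1) + k : ℕ) : ℤ) := by rw [hcount]
      push_cast [Nat.cast_sub (by omega : 1 ≤ v)] at this
      exact this
    have h2 : ((k : ℤ) : ℂ) * ((k : ℤ) : ℂ) = (((lam * (v - 1) + k : ℤ)) : ℂ) := by
      rw [← h1]; push_cast; ring
    push_cast at h2 ⊢
    linear_combination h2
  have htJ : (jm v).trace = v := by
    simp [jm, Matrix.trace]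
  have htC : (cm B p).trace = ((univ.filter fun x => x ∈ B (p x)).card : ℂ) := by
    rw [Finset.card_filter]
    simp only [Matrix.trace, cm, Matrix.diag_apply, Matrix.of_apply]
    push_cast
    rfl
  have := trace_mem (v := v) (m := orderOf τ) (by omega) hm (cm B p) (qm τ) (jm v) k s lam hs0 hJJ
    hCJ hJC hQJ hJQ hQC hC hQm hkk htJ
  rwa [htC] at this

/-- number of absolute points -/
def absPts {v : ℕ} (B : Fin v → Finset (Fin v)) (p : Equiv.Perm (Fin v)) : ℕ :=
  (univ.filter fun x => x ∈ B (p x)).card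

lemma main_dvd {v k lam : ℕ} (hv : 2 ≤ v) (hlam : 1 ≤ lam) (hkv : k < v)
    {B : Fin v → Finset (Fin v)} (hk : ∀ i, (B i).card = k)
    (hp : ∀ x y : Fin v, x ≠ y →
      (Finset.univ.filter (fun i => x ∈ B i ∧ y ∈ B i)).card = lam)
    (p b : Equiv.Perm (Fin v)) (hcorr : ∀ x i, x ∈ B i ↔ b i ∈ B (p x)) :
    ∃ t : ℤ, ((absPts B p : ℤ) - k) ^ 2 = ((k : ℤ) - lam) * t ∧
      ∀ q : ℕ, q.Prime → ¬ q ∣ orderOf (b * p) → t ≠ 0 → Even (padicValInt q t) := by
  classical
  obtain ⟨hlk, s, hs, hs0, hmem⟩ := design_mem hv hlam hkv hk hp p b hcorr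
  have hm : 0 < orderOf (b * p) := orderOf_pos _
  set w : ℂ := (((univ.filter fun x => x ∈ B (p x)).card : ℂ) - k) / s with hw
  have hn0 : ((k : ℚ) - lam) ≠ 0 := by
    have : (lam : ℚ) < k := by exact_mod_cast hlk
    linarith
  have hw2 : w ^ 2 = (((((absPts B p : ℚ) - k) ^ 2 / ((k : ℚ) - lam)) : ℚ) : ℂ) := by
    rw [hw, div_pow, hs]
    unfold absPts
    push_cast
    rfl
  obtain ⟨t, ht⟩ := rat_int (q := (((absPts B p : ℚ) - k) ^ 2 / ((k : ℚ) - lam))) (by
    rw [← hw2]; exact (R_int (by omega) hmem).pow 2)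
  refine ⟨t, ?_, ?_⟩
  · have h1 : ((absPts B p : ℚ) - k) ^ 2 = ((k : ℚ) - lam) * t := by
      rw [ht]; field_simp
    exact_mod_cast h1
  · intro q hq hqm ht0
    obtain ⟨f, hf, hgen⟩ := gen_ok hm hq hqm
    exact descent (by omega) hq hf hgen t.natAbs t ht0 le_rfl w hmem (by
      rw [hw2, ← ht]; push_cast; rfl)

/-- odd exponents -/
lemma main_odd {v k lam : ℕ} (hv : 2 ≤ v) (hlam : 1 ≤ lam) (hkv : k < v)
    {B : Fin v → Finset (Fin v)} (hk : ∀ i, (B i).card = k)
    (hp : ∀ x y : Fin v, x ≠ y →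
      (Finset.univ.filter (fun i => x ∈ B i ∧ y ∈ B i)).card = lam)
    (p b : Equiv.Perm (Fin v)) (hcorr : ∀ x i, x ∈ B i ↔ b i ∈ B (p x)) {q : ℕ} (hq : q.Prime)
    (hqm : ¬ q ∣ orderOf (b * p)) (hodd : Odd (padicValNat q (k - lam))) : absPts B p = k := by
  haveI := Fact.mk hq
  obtain ⟨hlk, -, -⟩ := Pool.Agent.H951R4.OD.design_facts hv hlam hkv hk hp
  obtain ⟨t, ht, hev⟩ := main_dvd hv hlam hkv hk hp p b hcorr
  by_contra hne
  have ha : ((absPts B p : ℤ) - k) ≠ 0 := by
    intro h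
    apply hne
    omega
  have hn : ((k : ℤ) - lam) ≠ 0 := by omega
  have ht0 : t ≠ 0 := by
    rintro rfl
    rw [mul_zero] at ht
    exact ha (pow_eq_zero_iff (by norm_num) |>.1 ht)
  have h1 := congrArg (padicValInt q) ht
  rw [pow_two, padicValInt.mul ha ha, padicValInt.mul hn ht0] at h1
  have h2 : padicValInt q ((k : ℤ) - lam) = padicValNat q (k - lam) := by
    have : (k : ℤ) - lam = ((k - lam : ℕ) : ℤ) := by omega
    rw [this, padicValInt.of_nat]
  rw [h2] at h1
  obtain ⟨c, hc⟩ := hev q hq hqm ht0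
  obtain ⟨d, hd⟩ := hodd
  omega

/-- counting -/
lemma count_le (lam M X : ℕ) (hM : 0 < M) (S : Set ℕ)
    (hS : ∀ k ∈ S, k ≤ X ∧ lam < k ∧ ∀ q : ℕ, q.Prime → Odd (padicValNat q (k - lam)) → q ∣ M) :
    S.ncard ≤ M.divisors.card * Nat.sqrt X := by
  classical
  have hkey : ∀ k ∈ S, ∃ c ∈ M.divisors ×ˢ Finset.Icc 1 (Nat.sqrt X), k = lam + c.2 ^ 2 * c.1 := by
    intro k hk
    obtain ⟨h1, h2, h3⟩ := hS k hk
    obtain ⟨a, b, hab, ha⟩ := Nat.sq_mul_squarefree (k - lam)
    have hn0 : k - lam ≠ 0 := by omega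
    have hb0 : b ≠ 0 := by rintro rfl; simp at hab; omega
    have ha0 : a ≠ 0 := ha.ne_zero
    refine ⟨(a, b), ?_, by simp only; omega⟩
    rw [Finset.mem_product, Nat.mem_divisors, Finset.mem_Icc]
    refine ⟨⟨?_, hM.ne'⟩, Nat.one_le_iff_ne_zero.2 hb0, ?_⟩
    · simp only
      rw [← Nat.prod_primeFactors_of_squarefree ha]
      refine (Finset.prod_dvd_prod_of_subset _ M.primeFactors _ ?_).trans
        (Nat.prod_primeFactors_dvd M)
      intro q hq
      have hqp := Nat.prime_of_mem_primeFactors hq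
      haveI := Fact.mk hqp
      have hqa := Nat.dvd_of_mem_primeFactors hq
      rw [Nat.mem_primeFactors]
      refine ⟨hqp, ?_, hM.ne'⟩
      apply h3 q hqp
      rw [← hab, padicValNat.mul (pow_ne_zero 2 hb0) ha0, padicValNat.pow]
      have h4 : padicValNat q a = 1 := by
        have h5 := (Nat.squarefree_iff_factorization_le_one ha0).1 ha q
        rw [Nat.factorization_def a hqp] at h5
        have h6 : 1 ≤ padicValNat q a := one_le_padicValNat_of_dvd ha0 hqa
        omega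
      rw [h4]
      exact ⟨padicValNat q b, rfl⟩
    · simp only
      rw [Nat.le_sqrt']
      calc b ^ 2 ≤ b ^ 2 * a := Nat.le_mul_of_pos_right _ (Nat.pos_of_ne_zero ha0)
        _ = k - lam := hab
        _ ≤ X := by omega
  have hsub : S ⊆ ((fun c : ℕ × ℕ => lam + c.2 ^ 2 * c.1) ''
      (↑(M.divisors ×ˢ Finset.Icc 1 (Nat.sqrt X)) : Set (ℕ × ℕ))) := by
    intro k hk
    obtain ⟨c, hc, rfl⟩ := hkey k hk
    exact ⟨c, hc, rfl⟩
  calc S.ncard ≤ _ := Set.ncard_le_ncard hsub ((Finset.finite_toSet _).image _)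
    _ ≤ (↑(M.divisors ×ˢ Finset.Icc 1 (Nat.sqrt X)) : Set (ℕ × ℕ)).ncard :=
        Set.ncard_image_le (Finset.finite_toSet _)
    _ = _ := by
        rw [Set.ncard_coe_finset, Finset.card_product, Nat.card_Icc, Nat.add_sub_cancel]

end Pool.Agent.X172.Corr
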