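import Mathlib

/-!
Magnetic Laplacians: smallest eigenvalue, magneto-spectral height, Rayleigh quotients.
-/

set_option autoImplicit false

namespace Pool.Agent.X172.MagLap

open Finset Matrix


variable {V : Type} [Fintype V] [DecidableEq V]

/-- A magnetic potential on `G` (only its values on adjacent pairs matter). -/
def IsPotential (G : SimpleGraph V) (σ : V → V → ℂ) : Prop :=
  ∀ x y, G.Adj x y → ‖σ x y‖ = 1 ∧ σ y x = (σ x y)⁻¹

/-- The matrix of the magnetic Laplacian, see `lap_mulVec`. -/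
noncomputable def lap (G : SimpleGraph V) [DecidableRel G.Adj] (σ : V → V → ℂ) : Matrix V V ℂ :=
  fun x y => if x = y then (G.degree x : ℂ) else if G.Adj x y then -σ x y else 0

/-- The magnetic Laplacian is `(Δ f)(x) = ∑_{y ∼ x} (f x - σ(x,y) f y)`. -/
theorem lap_mulVec (G : SimpleGraph V) [DecidableRel G.Adj] (σ : V → V → ℂ) (f : V → ℂ) (x : V) :
    (lap G σ *ᵥ f) x = ∑ y ∈ G.neighborFinset x, (f x - σ x y * f y) := by
  rw [Matrix.mulVec, dotProduct, ← add_sum_erase _ _ (mem_univ x), sum_sub_distrib, sum_const,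
    G.card_neighborFinset_eq_degree, nsmul_eq_mul, sub_eq_add_neg, ← sum_neg_distrib]
  congr 1
  · simp [lap]
  · have h1 : ∀ y ∈ univ.erase x, lap G σ x y * f y = if G.Adj x y then -(σ x y * f y) else 0 := by
      intro y hy
      have hne : x ≠ y := fun h => (mem_erase.mp hy).1 h.symm
      unfold lap
      rw [if_neg hne]
      split_ifs
      · ring
      · ring
    rw [sum_congr rfl h1, ← sum_filter]
    refine sum_congr ?_ fun _ _ => rfl
    ext y
    simp only [mem_filter, mem_erase, mem_univ, and_true, SimpleGraph.mem_neighborFinset,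
      and_iff_right_iff_imp]
    intro h
    exact h.ne'

theorem lap_hermitian {G : SimpleGraph V} [DecidableRel G.Adj] {σ : V → V → ℂ}
    (hσ : IsPotential G σ) : (lap G σ).IsHermitian := by
  ext x y
  rw [conjTranspose_apply]
  unfold lap
  by_cases h : x = y
  · subst h
    simp
  · rw [if_neg h, if_neg (fun h' => h h'.symm)]
    by_cases h1 : G.Adj x y
    · rw [if_pos h1, if_pos h1.symm]
      obtain ⟨h2, h3⟩ := hσ x y h1
      rw [h3, star_neg, star_inv₀, neg_inj, RCLike.star_def]
      rw [inv_eq_iff_eq_inv, Complex.inv_def, Complex.normSq_eq_norm_sq, h2]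
      simp
    · rw [if_neg h1, if_neg (fun h' => h1 h'.symm)]
      simp

/-- The smallest eigenvalue of the magnetic Laplacian. -/
noncomputable def lam1 {G : SimpleGraph V} [DecidableRel G.Adj] {σ : V → V → ℂ}
    (hσ : IsPotential G σ) : ℝ := ⨅ i, (lap_hermitian hσ).eigenvalues i

/-- The magneto-spectral height. -/
noncomputable def nu (G : SimpleGraph V) [DecidableRel G.Adj] : ℝ :=
  sSup {r : ℝ | ∃ (σ : V → V → ℂ) (hσ : IsPotential G σ), r = lam1 hσ}

/-- The quadratic form of a matrix. -/
noncomputable def form (M : Matrix V V ℂ) (f : V → ℂ) : ℝ :=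
  (∑ x, ∑ y, star (f x) * M x y * f y).re

theorem form_eq {M : Matrix V V ℂ} (hM : M.IsHermitian) (f : V → ℂ) :
    form M f = ∑ j, hM.eigenvalues j * ‖∑ x, star (f x) * hM.eigenvectorBasis j x‖ ^ 2 := by
  have hspec : ∀ i k, M i k = ∑ j, (hM.eigenvalues j : ℂ) *
      (hM.eigenvectorBasis j i * star (hM.eigenvectorBasis j k)) := by
    intro i k
    have h := hM.spectral_theorem
    have h2 := congrFun (congrFun h i) k
    rw [h2, Unitary.conjStarAlgAut_apply, Matrix.mul_apply]
    refine sum_congr rfl fun j _ => ?_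
    rw [Matrix.mul_diagonal, star_apply, Matrix.IsHermitian.eigenvectorUnitary_apply,
      Matrix.IsHermitian.eigenvectorUnitary_apply]
    simp only [Function.comp, Complex.coe_algebraMap]
    ring_nf
  unfold form
  have h1 : ∑ x, ∑ y, star (f x) * M x y * f y =
      ∑ j, (hM.eigenvalues j : ℂ) * ((∑ x, star (f x) * hM.eigenvectorBasis j x) *
        star (∑ x, star (f x) * hM.eigenvectorBasis j x)) := by
    simp_rw [hspec, mul_sum, sum_mul]
    rw [sum_congr rfl fun i _ => sum_comm, sum_comm]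
    refine sum_congr rfl fun j _ => ?_
    rw [star_sum, mul_sum]
    refine sum_congr rfl fun i _ => ?_
    rw [mul_sum, mul_sum]
    refine sum_congr rfl fun k _ => ?_
    simp only [star_mul', star_star]
    ring
  rw [h1, Complex.re_sum]
  refine sum_congr rfl fun j _ => ?_
  rw [RCLike.star_def, Complex.mul_conj, Complex.normSq_eq_norm_sq, ← Complex.ofReal_mul,
    Complex.ofReal_re]

theorem parseval {M : Matrix V V ℂ} (hM : M.IsHermitian) (f : V → ℂ) :
    ∑ j, ‖∑ x, star (f x) * hM.eigenvectorBasis j x‖ ^ 2 = ∑ x, ‖f x‖ ^ 2 := by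
  have h3 := hM.eigenvectorBasis.sum_sq_norm_inner_left (WithLp.toLp 2 f)
  have h4 : ‖(WithLp.toLp 2 f : EuclideanSpace ℂ V)‖ ^ 2 = ∑ i, ‖f i‖ ^ 2 := by
    rw [EuclideanSpace.norm_sq_eq]
  rw [h4] at h3
  rw [← h3]
  refine sum_congr rfl fun j _ => ?_
  rw [PiLp.inner_apply]
  congr 2
  refine sum_congr rfl fun i _ => ?_
  simp [mul_comm]

theorem rayleigh {M : Matrix V V ℂ} (hM : M.IsHermitian) (f : V → ℂ) :
    (⨅ i, hM.eigenvalues i) * ∑ x, ‖f x‖ ^ 2 ≤ form M f := by
  rw [form_eq hM, ← parseval hM f, mul_sum]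
  refine sum_le_sum fun j _ => mul_le_mul_of_nonneg_right ?_ (sq_nonneg _)
  exact ciInf_le (Set.finite_range _).bddBelow j

theorem le_of_form {M : Matrix V V ℂ} (hM : M.IsHermitian) [Nonempty V] {c : ℝ}
    (h : ∀ f : V → ℂ, c * ∑ x, ‖f x‖ ^ 2 ≤ form M f) : c ≤ ⨅ i, hM.eigenvalues i := by
  apply le_ciInf
  intro j
  have h1 := h (fun x => hM.eigenvectorBasis j x)
  have h2 : ∑ x, ‖hM.eigenvectorBasis j x‖ ^ 2 = 1 := by
    have h3 : ‖hM.eigenvectorBasis j‖ ^ 2 = 1 := by
      rw [hM.eigenvectorBasis.orthonormal.1 j]; norm_num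
    rw [EuclideanSpace.norm_sq_eq] at h3
    exact h3
  have h4 : form M (fun x => hM.eigenvectorBasis j x) = hM.eigenvalues j := by
    rw [form_eq hM, sum_eq_single j]
    · have h5 : ∑ x, star (hM.eigenvectorBasis j x) * hM.eigenvectorBasis j x = 1 := by
        have h6 : ∀ x, star (hM.eigenvectorBasis j x) * hM.eigenvectorBasis j x
            = ((‖hM.eigenvectorBasis j x‖ ^ 2 : ℝ) : ℂ) := by
          intro x
          rw [mul_comm, RCLike.star_def, Complex.mul_conj, Complex.normSq_eq_norm_sq]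
        simp_rw [h6]
        rw [← Complex.ofReal_sum, h2]
        simp
      rw [h5]
      simp
    · intro k _ hk
      have h5 : inner ℂ (hM.eigenvectorBasis j) (hM.eigenvectorBasis k) = 0 :=
        hM.eigenvectorBasis.orthonormal.2 hk.symm
      rw [PiLp.inner_apply] at h5
      have h6 : ∑ x, star (hM.eigenvectorBasis j x) * hM.eigenvectorBasis k x = 0 := by
        rw [← h5]
        refine sum_congr rfl fun i _ => ?_
        simp [mul_comm]
      rw [h6]
      simp
    · intro h'; exact absurd (mem_univ _) h'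
  rw [h2, h4, mul_one] at h1
  exact h1


/-- the smallest eigenvalue of a magnetic Laplacian is at most every degree -/
theorem lam1_le_degree {G : SimpleGraph V} [DecidableRel G.Adj] {σ : V → V → ℂ}
    (hσ : IsPotential G σ) (v : V) : lam1 hσ ≤ G.degree v := by
  have hr := rayleigh (lap_hermitian hσ) (fun x => if x = v then 1 else 0)
  have h2 : ∑ x : V, ‖(if x = v then (1 : ℂ) else 0)‖ ^ 2 = 1 := by
    rw [sum_eq_single v]
    · simp
    · intro b _ hb
      simp [hb]
    · intro h; exact absurd (mem_univ _) h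
  have h3 : form (lap G σ) (fun x => if x = v then (1 : ℂ) else 0) = G.degree v := by
    unfold form
    have h4 : ∑ x, ∑ y, star (if x = v then (1 : ℂ) else 0) * lap G σ x y *
        (if y = v then (1 : ℂ) else 0) = G.degree v := by
      rw [sum_eq_single v, sum_eq_single v]
      · simp [lap]
      · intro b _ hb
        simp [hb]
      · intro h; exact absurd (mem_univ _) h
      · intro b _ hb
        simp [hb]
      · intro h; exact absurd (mem_univ _) h
    rw [h4]
    simp
  rw [h2, h3, mul_one] at hr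
  exact hr

theorem nu_bdd (G : SimpleGraph V) [DecidableRel G.Adj] [Nonempty V] :
    BddAbove {r : ℝ | ∃ (σ : V → V → ℂ) (hσ : IsPotential G σ), r = lam1 hσ} := by
  obtain ⟨v⟩ := (inferInstance : Nonempty V)
  refine ⟨G.degree v, ?_⟩
  rintro _ ⟨σ, hσ, rfl⟩
  exact lam1_le_degree hσ v

theorem le_nu {G : SimpleGraph V} [DecidableRel G.Adj] [Nonempty V] {σ : V → V → ℂ}
    (hσ : IsPotential G σ) {c : ℝ} (h : c ≤ lam1 hσ) : c ≤ nu G :=
  le_csSup_of_le (nu_bdd G) ⟨σ, hσ, rfl⟩ h

end Pool.Agent.X172.MagLap
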