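import Mathlib

set_option autoImplicit false

namespace Pool.Agent.X172.Split

open Matrix Polynomial

section

variable {ι : Type*} [Fintype ι] [DecidableEq ι]

/-- The Alexander polynomial `det (X V - Vᵀ)` of a square matrix `V`. -/
noncomputable def alex (V : Matrix ι ι ℤ) : ℤ[X] := ((X : ℤ[X]) • V.map C - (V.map C)ᵀ).det

theorem alex_eq {V h : Matrix ι ι ℤ} (hV : V * h = Vᵀ) : alex V = C V.det * h.charpoly := by
  have h1 : (X : ℤ[X]) • V.map C - (V.map C)ᵀ = V.map C * h.charmatrix := by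
    unfold charmatrix
    rw [mul_sub, scalar_apply, ← smul_one_eq_diagonal, Matrix.mul_smul, mul_one]
    congr 1
    rw [← transpose_map, ← hV]
    exact Matrix.map_mul
  unfold alex
  rw [h1, det_mul, Matrix.charpoly]
  congr 1
  exact ((C : ℤ →+* ℤ[X]).map_det V).symm

theorem exists_factor (h : Matrix ι ι ℤ) (p : ℤ[X]) :
    ∃ B : Matrix ι ι ℤ[X],
      p • (1 : Matrix ι ι ℤ[X]) - (aeval h p).map C = h.charmatrix * B := by
  have hm : h.charmatrix = (X : ℤ[X]) • (1 : Matrix ι ι ℤ[X]) - h.map C := by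
    unfold charmatrix
    rw [scalar_apply, ← smul_one_eq_diagonal]
    rfl
  induction p using Polynomial.induction_on' with
  | add p q hp hq =>
    obtain ⟨B, hB⟩ := hp
    obtain ⟨D, hD⟩ := hq
    refine ⟨B + D, ?_⟩
    rw [mul_add, ← hB, ← hD, map_add, add_smul, Matrix.map_add _ (map_add C)]
    abel
  | monomial n c =>
    have hc : Commute ((X : ℤ[X]) • (1 : Matrix ι ι ℤ[X])) (h.map C) := by
      unfold Commute SemiconjBy
      rw [smul_mul_assoc, one_mul, mul_smul_comm, mul_one]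
    refine ⟨(C c) • ∑ i ∈ Finset.range n, ((X : ℤ[X]) • (1 : Matrix ι ι ℤ[X])) ^ i *
      (h.map C) ^ (n - 1 - i), ?_⟩
    rw [hm, Matrix.mul_smul, hc.mul_geom_sum₂, smul_sub]
    congr 1
    · rw [_root_.smul_pow, one_pow, smul_smul, C_mul_X_pow_eq_monomial]
    · rw [aeval_monomial]
      have h2 : (h.map C) ^ n = (h ^ n).map (C : ℤ → ℤ[X]) := by
        have := map_pow ((C : ℤ →+* ℤ[X]).mapMatrix (m := ι)) h n
        exact this.symm
      rw [h2]
      ext1 i j
      rw [Matrix.smul_apply, map_apply, map_apply, smul_eq_mul, ← C_mul, ← Algebra.smul_def,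
        Matrix.smul_apply, smul_eq_mul]

theorem charpoly_dvd_pow (h : Matrix ι ι ℤ) (p : ℤ[X]) (hp : aeval h p = 0) :
    h.charpoly ∣ p ^ Fintype.card ι := by
  obtain ⟨B, hB⟩ := exists_factor h p
  rw [hp] at hB
  have h1 : p • (1 : Matrix ι ι ℤ[X]) = h.charmatrix * B := by
    rw [← hB]
    ext i j
    simp
  have h2 := congrArg Matrix.det h1
  rw [det_smul, det_one, mul_one, det_mul] at h2
  exact ⟨B.det, h2⟩

/-- If `h` is an isometry of the form `V` and `p` is reciprocal then `p(h)` is self-adjoint up to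
a power of `h`. -/
theorem adjoint {V h : Matrix ι ι ℤ} (hi : hᵀ * V * h = V) {p : ℤ[X]} (hp : p.reverse = p) :
    (aeval h p)ᵀ * V * h ^ p.natDegree = V * aeval h p := by
  have key : ∀ i, i ≤ p.natDegree → (h ^ i)ᵀ * V * h ^ p.natDegree = V * h ^ (p.natDegree - i) := by
    intro i hi'
    have h1 : ∀ i, (h ^ i)ᵀ * V * h ^ i = V := by
      intro i
      induction i with
      | zero => simp
      | succ i ih =>
        rw [pow_succ', transpose_mul]
        calc (h ^ i)ᵀ * hᵀ * V * (h * h ^ i) = (h ^ i)ᵀ * (hᵀ * V * h) * h ^ i := by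
              simp only [Matrix.mul_assoc]
          _ = V := by rw [hi, ih]
    have h2 : h ^ p.natDegree = h ^ i * h ^ (p.natDegree - i) := by
      rw [← pow_add]; congr 1; omega
    rw [h2, ← Matrix.mul_assoc, h1]
  rw [aeval_eq_sum_range, transpose_sum, Matrix.sum_mul, Matrix.sum_mul, Matrix.mul_sum,
    ← Finset.sum_range_reflect]
  apply Finset.sum_congr rfl
  intro j hj
  have hj' : j ≤ p.natDegree := by
    rw [Finset.mem_range] at hj; omega
  have e1 : p.natDegree + 1 - 1 - j = p.natDegree - j := by omega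
  rw [e1]
  have e2 : p.coeff (p.natDegree - j) = p.coeff j := by
    have := coeff_reverse p j
    rw [revAt_le hj', hp] at this
    exact this.symm
  rw [e2, transpose_smul, Matrix.smul_mul, Matrix.smul_mul, key _ (by omega), Matrix.mul_smul]
  congr 3
  omega

end

theorem aeval_fromBlocks {m n : Type*} [Fintype m] [DecidableEq m] [Fintype n] [DecidableEq n]
    (A : Matrix m m ℤ) (D : Matrix n n ℤ) (p : ℤ[X]) :
    aeval (fromBlocks A 0 0 D) p = fromBlocks (aeval A p) 0 0 (aeval D p) := by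
  rw [aeval_eq_sum_range, aeval_eq_sum_range, aeval_eq_sum_range]
  have h1 : ∀ i, (fromBlocks A 0 0 D) ^ i = fromBlocks (A ^ i) 0 0 (D ^ i) := fun i =>
    fromBlocks_diagonal_pow A D i
  have h2 : ∀ s : Finset ℕ, ∑ i ∈ s, p.coeff i • (fromBlocks A 0 0 D) ^ i
      = fromBlocks (∑ i ∈ s, p.coeff i • A ^ i) 0 0 (∑ i ∈ s, p.coeff i • D ^ i) := by
    intro s
    induction s using Finset.induction_on with
    | empty => simp
    | insert a s ha ih =>
      rw [Finset.sum_insert ha, Finset.sum_insert ha, Finset.sum_insert ha, ih, h1,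
        fromBlocks_smul, fromBlocks_add]
      simp
  exact h2 _

end Pool.Agent.X172.Split

namespace Pool.Agent.X172.Split

open Matrix Polynomial

/-- Two complementary idempotent matrices give a block basis. -/
theorem exists_basis {m : ℕ} (e f : Matrix (Fin m) (Fin m) ℤ) (h1 : e + f = 1) (h2 : e * f = 0) :
    ∃ (r s : ℕ) (W : Matrix (Fin m) (Fin r ⊕ Fin s) ℤ) (W' : Matrix (Fin r ⊕ Fin s) (Fin m) ℤ),
      W * W' = 1 ∧ W' * W = 1 ∧ W' * e * W = fromBlocks 1 0 0 0 ∧
        W' * f * W = fromBlocks 0 0 0 1 := by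
  have hee : e * e = e := by
    calc e * e = e * (e + f) := by rw [mul_add, h2, add_zero]
      _ = e := by rw [h1, mul_one]
  set E := Matrix.toLin' e with hE
  have he : IsIdempotentElem E := by
    show E * E = E
    rw [hE, Module.End.mul_eq_comp, ← Matrix.toLin'_mul, hee]
  have hc : IsCompl (LinearMap.range E) (LinearMap.ker E) := LinearMap.IsIdempotentElem.isCompl he
  obtain ⟨r, b1⟩ := Submodule.basisOfPid (Pi.basisFun ℤ (Fin m)) (LinearMap.range E)
  obtain ⟨s, b2⟩ := Submodule.basisOfPid (Pi.basisFun ℤ (Fin m)) (LinearMap.ker E)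
  set B : Module.Basis (Fin r ⊕ Fin s) ℤ (Fin m → ℤ) :=
    (b1.prod b2).map (Submodule.prodEquivOfIsCompl _ _ hc) with hB
  set W := (Pi.basisFun ℤ (Fin m)).toMatrix B with hW
  set W' := B.toMatrix (Pi.basisFun ℤ (Fin m)) with hW'
  have hw1 : W * W' = 1 := Module.Basis.toMatrix_mul_toMatrix_flip _ _
  have hw2 : W' * W = 1 := Module.Basis.toMatrix_mul_toMatrix_flip _ _
  have hinl : ∀ j, B (Sum.inl j) = b1 j := by
    intro j
    simp [hB]
  have hinr : ∀ j, B (Sum.inr j) = b2 j := by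
    intro j
    simp [hB]
  have hEl : ∀ j, E (B (Sum.inl j)) = B (Sum.inl j) := by
    intro j
    rw [hinl]
    obtain ⟨x, hx⟩ := (b1 j).2
    rw [← hx]
    exact congrArg (fun g : Module.End ℤ (Fin m → ℤ) => g x) he
  have hEr : ∀ j, E (B (Sum.inr j)) = 0 := by
    intro j
    rw [hinr]
    exact (b2 j).2
  have hwe : W' * e * W = fromBlocks 1 0 0 0 := by
    have h4 : W' * e * W = LinearMap.toMatrix B B E := by
      have h6 := basis_toMatrix_mul_linearMap_toMatrix_mul_basis_toMatrix B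
        (Pi.basisFun ℤ (Fin m)) B (Pi.basisFun ℤ (Fin m)) E
      have h7 : LinearMap.toMatrix (Pi.basisFun ℤ (Fin m)) (Pi.basisFun ℤ (Fin m)) E = e := by
        rw [LinearMap.toMatrix_eq_toMatrix', hE, LinearMap.toMatrix'_toLin']
      rw [h7] at h6
      exact h6
    rw [h4]
    ext i j
    rw [LinearMap.toMatrix_apply]
    rcases j with j | j
    · rw [hEl, Module.Basis.repr_self]
      rcases i with i | i
      · simp [Finsupp.single_apply, Matrix.one_apply, eq_comm]
      · simp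
    · rw [hEr, map_zero]
      rcases i with i | i <;> simp
  refine ⟨r, s, W, W', hw1, hw2, hwe, ?_⟩
  have h5 : f = 1 - e := by rw [← h1]; abel
  rw [h5, Matrix.mul_sub, Matrix.sub_mul, hwe, Matrix.mul_one, hw2]
  ext i j
  rcases i with i | i <;> rcases j with j | j <;> simp [Matrix.one_apply]

theorem aeval_conj {m : ℕ} {κ : Type*} [Fintype κ] [DecidableEq κ] {W : Matrix (Fin m) κ ℤ}
    {W' : Matrix κ (Fin m) ℤ} (hw1 : W * W' = 1) (hw2 : W' * W = 1) (h : Matrix (Fin m) (Fin m) ℤ)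
    (p : ℤ[X]) : aeval (W' * h * W) p = W' * aeval h p * W := by
  have h1 : ∀ i, (W' * h * W) ^ i = W' * h ^ i * W := by
    intro i
    induction i with
    | zero => simp [hw2]
    | succ i ih =>
      rw [pow_succ, ih, pow_succ]
      calc W' * h ^ i * W * (W' * h * W) = W' * h ^ i * (W * W') * h * W := by
            simp only [Matrix.mul_assoc]
        _ = W' * (h ^ i * h) * W := by rw [hw1, Matrix.mul_one]; simp only [Matrix.mul_assoc]
  rw [aeval_eq_sum_range, aeval_eq_sum_range, Matrix.mul_sum, Matrix.sum_mul]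
  apply Finset.sum_congr rfl
  intro i _
  rw [h1, Matrix.mul_smul, Matrix.smul_mul]

theorem alex_fromBlocks {m n : Type*} [Fintype m] [DecidableEq m] [Fintype n] [DecidableEq n]
    (A : Matrix m m ℤ) (D : Matrix n n ℤ) : alex (fromBlocks A 0 0 D) = alex A * alex D := by
  unfold alex
  rw [fromBlocks_map, fromBlocks_transpose, fromBlocks_smul]
  have : (0 : Matrix m n ℤ).map (C : ℤ → ℤ[X]) = 0 := by ext; simp
  have h2 : (0 : Matrix n m ℤ).map (C : ℤ → ℤ[X]) = 0 := by ext; simp
  rw [this, h2, transpose_zero, transpose_zero, smul_zero, smul_zero]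
  have h3 : fromBlocks ((X : ℤ[X]) • A.map C) 0 0 ((X : ℤ[X]) • D.map C)
      - fromBlocks (A.map C)ᵀ 0 0 (D.map C)ᵀ
      = fromBlocks ((X : ℤ[X]) • A.map C - (A.map C)ᵀ) 0 0
        ((X : ℤ[X]) • D.map C - (D.map C)ᵀ) := by
    ext i j
    rcases i with i | i <;> rcases j with j | j <;> simp
  rw [h3, det_fromBlocks_zero₂₁]

theorem alex_conj {m : ℕ} {κ : Type*} [Fintype κ] [DecidableEq κ] {W : Matrix (Fin m) κ ℤ}
    {W' : Matrix κ (Fin m) ℤ} (hw1 : W * W' = 1) (hw2 : W' * W = 1) (V : Matrix (Fin m) (Fin m) ℤ) :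
    alex (Wᵀ * V * W) = alex V * C (W * Wᵀ).det := by
  have e1 : (Wᵀ).map (C : ℤ → ℤ[X]) * (W'ᵀ).map C = 1 := by
    rw [← Matrix.map_mul, ← transpose_mul, hw2, transpose_one, Matrix.map_one _ C_0 C_1]
  have e2 : (W'ᵀ).map (C : ℤ → ℤ[X]) * (Wᵀ).map C = 1 := by
    rw [← Matrix.map_mul, ← transpose_mul, hw1, transpose_one, Matrix.map_one _ C_0 C_1]
  set A := (X : ℤ[X]) • V.map C - (V.map C)ᵀ with hA
  have h1 : (X : ℤ[X]) • (Wᵀ * V * W).map C - ((Wᵀ * V * W).map C)ᵀ
      = (Wᵀ).map C * A * W.map C := by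
    rw [hA, ← transpose_map, transpose_mul, transpose_mul, transpose_transpose, Matrix.map_mul,
      Matrix.map_mul, Matrix.map_mul, Matrix.map_mul, ← transpose_map, Matrix.mul_sub,
      Matrix.sub_mul, Matrix.mul_smul, Matrix.smul_mul, Matrix.mul_assoc ((Wᵀ).map C) ((Vᵀ).map C)]
  have h2 : (Wᵀ).map C * A * W.map C
      = (Wᵀ).map C * (A * (W * Wᵀ).map C) * (W'ᵀ).map C := by
    rw [Matrix.map_mul]
    calc (Wᵀ).map C * A * W.map C = (Wᵀ).map C * A * W.map C * ((Wᵀ).map C * (W'ᵀ).map C) := by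
          rw [e1, Matrix.mul_one]
      _ = _ := by simp only [Matrix.mul_assoc]
  unfold alex
  rw [h1, h2, det_conj_of_mul_eq_one e1 e2, det_mul]
  congr 1
  exact ((C : ℤ →+* ℤ[X]).map_det (W * Wᵀ)).symm

/-- one half of the comparison of characteristic polynomials -/
theorem charpoly_dvd {r : ℕ} (h : Matrix (Fin r) (Fin r) ℤ) {P Q : ℤ[X]} (hc : IsCoprime P Q)
    (hP : aeval h P = 0) (hd : h.charpoly ∣ P * Q) : h.charpoly ∣ P := by
  have h1 := charpoly_dvd_pow h P hP
  have h2 : IsCoprime (P ^ Fintype.card (Fin r)) Q := hc.pow_left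
  exact (h2.of_isCoprime_of_dvd_left h1).dvd_of_dvd_mul_right hd

theorem split {m : ℕ} (V : Matrix (Fin m) (Fin m) ℤ) (P Q : ℤ[X]) (hP : P.Monic) (hQ : Q.Monic)
    (hPr : P.reverse = P) (hQr : Q.reverse = Q) (hc : IsCoprime P Q)
    (hV : alex V = P * Q ∨ alex V = -(P * Q)) :
    ∃ (V₁ : Matrix (Fin P.natDegree) (Fin P.natDegree) ℤ)
      (V₂ : Matrix (Fin Q.natDegree) (Fin Q.natDegree) ℤ)
      (W : Matrix (Fin m) (Fin P.natDegree ⊕ Fin Q.natDegree) ℤ)
      (W' : Matrix (Fin P.natDegree ⊕ Fin Q.natDegree) (Fin m) ℤ),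
      W * W' = 1 ∧ W' * W = 1 ∧ Wᵀ * V * W = fromBlocks V₁ 0 0 V₂ ∧
        (alex V₁ = P ∨ alex V₁ = -P) ∧ (alex V₂ = Q ∨ alex V₂ = -Q) := by
  obtain ⟨a, b, hab⟩ := hc
  have hc : IsCoprime P Q := ⟨a, b, hab⟩
  -- the determinant of `V`
  have hdet : IsUnit V.det := by
    have h1 : (alex V).eval 0 = (-Vᵀ).det := by
      unfold alex
      rw [← coe_evalRingHom, RingHom.map_det]
      congr 1
      ext i j
      simp
    have h2 : ∀ p : ℤ[X], p.Monic → p.reverse = p → p.eval 0 = 1 := by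
      intro p h3 h4
      rw [← coeff_zero_eq_eval_zero, ← h4, coeff_zero_reverse]
      exact h3
    have h3 : IsUnit ((alex V).eval 0) := by
      rcases hV with h4 | h4 <;> rw [h4] <;> simp [h2 P hP hPr, h2 Q hQ hQr]
    rw [h1, det_neg, det_transpose] at h3
    exact isUnit_of_mul_isUnit_right h3
  set h := V⁻¹ * Vᵀ with hh
  have hVh : V * h = Vᵀ := mul_nonsing_inv_cancel_left V _ hdet
  have hi : hᵀ * V * h = V := by
    rw [Matrix.mul_assoc, hVh, hh, transpose_mul, transpose_transpose, transpose_nonsing_inv,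
      Matrix.mul_assoc, nonsing_inv_mul _ (by rwa [det_transpose]), Matrix.mul_one]
  have hCH : aeval h (P * Q) = 0 := by
    have h1 := alex_eq hVh
    have h2 : aeval h (alex V) = 0 := by rw [h1, map_mul, aeval_self_charpoly, mul_zero]
    rcases hV with h4 | h4 <;> rw [h4] at h2
    · exact h2
    · rwa [map_neg, neg_eq_zero] at h2
  have hu : IsUnit h.det := by
    rw [hh, det_mul, det_transpose]
    exact (isUnit_nonsing_inv_det V hdet).mul hdet
  set e := aeval h (b * Q) with he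
  set f := aeval h (a * P) with hf
  have hef : e + f = 1 := by
    rw [he, hf, ← map_add, add_comm, hab, map_one]
  have hPe : aeval h P * e = 0 := by
    rw [he, ← map_mul, show P * (b * Q) = b * (P * Q) by ring, map_mul, hCH, mul_zero]
  have hQf : aeval h Q * f = 0 := by
    rw [hf, ← map_mul, show Q * (a * P) = a * (P * Q) by ring, map_mul, hCH, mul_zero]
  have hef0 : e * f = 0 := by
    rw [he, hf, ← map_mul, show b * Q * (a * P) = (a * b) * (P * Q) by ring, map_mul, hCH, mul_zero]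
  -- orthogonality
  have orth : ∀ (p q : ℤ[X]) (g : Matrix (Fin m) (Fin m) ℤ), p.reverse = p →
      aeval h p * g = 0 → Commute (h ^ p.natDegree) g → (aeval h (q * p))ᵀ * V * g = 0 := by
    intro p q g hp hg hcomm
    have h1 : ((aeval h p)ᵀ * V * g) * h ^ p.natDegree = 0 := by
      rw [Matrix.mul_assoc, ← hcomm.eq, ← Matrix.mul_assoc, adjoint hi hp, Matrix.mul_assoc, hg,
        Matrix.mul_zero]
    have h2 : IsUnit (h ^ p.natDegree).det := by rw [det_pow]; exact hu.pow _
    have h3 : (aeval h p)ᵀ * V * g = 0 := by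
      have := congrArg (· * (h ^ p.natDegree)⁻¹) h1
      simpa [Matrix.mul_assoc, mul_nonsing_inv _ h2] using this
    rw [map_mul, ← map_mul, mul_comm q p, map_mul, transpose_mul, Matrix.mul_assoc,
      Matrix.mul_assoc, ← Matrix.mul_assoc _ V g, h3, Matrix.mul_zero]
  have commp : ∀ (p : ℤ[X]) (n : ℕ), Commute (h ^ n) (aeval h p) := by
    intro p n
    have h1 : h ^ n = aeval h (X ^ n : ℤ[X]) := by simp
    rw [h1]
    unfold Commute SemiconjBy
    rw [← map_mul, ← map_mul, mul_comm]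
  have o1 : eᵀ * V * f = 0 := orth Q b f hQr hQf (commp _ _)
  have o2 : fᵀ * V * e = 0 := orth P a e hPr hPe (commp _ _)
  obtain ⟨r, s, W, W', hw1, hw2, hwe, hwf⟩ := exists_basis e f hef hef0
  set E0 : Matrix (Fin r ⊕ Fin s) (Fin r ⊕ Fin s) ℤ := fromBlocks 1 0 0 0 with hE0
  set F0 : Matrix (Fin r ⊕ Fin s) (Fin r ⊕ Fin s) ℤ := fromBlocks 0 0 0 1 with hF0
  have heW : e * W = W * E0 := by
    calc e * W = (W * W') * e * W := by rw [hw1, Matrix.one_mul]
      _ = W * (W' * e * W) := by simp only [Matrix.mul_assoc]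
      _ = _ := by rw [hwe]
  have hfW : f * W = W * F0 := by
    calc f * W = (W * W') * f * W := by rw [hw1, Matrix.one_mul]
      _ = W * (W' * f * W) := by simp only [Matrix.mul_assoc]
      _ = _ := by rw [hwf]
  set M := Wᵀ * V * W with hM
  have hM12 : M.toBlocks₁₂ = 0 := by
    have h1 : E0ᵀ * M * F0 = 0 := by
      calc E0ᵀ * M * F0
          = (W * E0)ᵀ * V * (W * F0) := by
            rw [hM, transpose_mul W]; simp only [Matrix.mul_assoc]
        _ = Wᵀ * (eᵀ * V * f) * W := by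
            rw [← heW, ← hfW, transpose_mul]; simp only [Matrix.mul_assoc]
        _ = 0 := by rw [o1, Matrix.mul_zero, Matrix.zero_mul]
    rw [hE0, hF0, ← fromBlocks_toBlocks M, fromBlocks_transpose, fromBlocks_multiply,
      fromBlocks_multiply] at h1
    have h2 := congrArg toBlocks₁₂ h1
    rw [toBlocks_fromBlocks₁₂] at h2
    simp only [transpose_one, transpose_zero, Matrix.one_mul, Matrix.zero_mul, add_zero,
      Matrix.mul_zero, zero_add, Matrix.mul_one] at h2
    rw [h2]
    ext i j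
    rfl
  have hM21 : M.toBlocks₂₁ = 0 := by
    have h1 : F0ᵀ * M * E0 = 0 := by
      calc F0ᵀ * M * E0
          = (W * F0)ᵀ * V * (W * E0) := by
            rw [hM, transpose_mul W]; simp only [Matrix.mul_assoc]
        _ = Wᵀ * (fᵀ * V * e) * W := by
            rw [← heW, ← hfW, transpose_mul]; simp only [Matrix.mul_assoc]
        _ = 0 := by rw [o2, Matrix.mul_zero, Matrix.zero_mul]
    rw [hE0, hF0, ← fromBlocks_toBlocks M, fromBlocks_transpose, fromBlocks_multiply,
      fromBlocks_multiply] at h1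
    have h2 := congrArg toBlocks₂₁ h1
    rw [toBlocks_fromBlocks₂₁] at h2
    simp only [transpose_one, transpose_zero, Matrix.one_mul, Matrix.zero_mul, add_zero,
      Matrix.mul_zero, zero_add, Matrix.mul_one] at h2
    rw [h2]
    ext i j
    rfl
  set V₁ := M.toBlocks₁₁ with hV₁
  set V₂ := M.toBlocks₂₂ with hV₂
  have hMb : M = fromBlocks V₁ 0 0 V₂ := by
    rw [← fromBlocks_toBlocks M, hM12, hM21]
  -- unimodularity of the blocks
  have hWW : IsUnit (W * Wᵀ).det := by
    apply isUnit_det_of_left_inverse (B := W'ᵀ * W')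
    calc W'ᵀ * W' * (W * Wᵀ) = W'ᵀ * (W' * W) * Wᵀ := by simp only [Matrix.mul_assoc]
      _ = (W * W')ᵀ := by rw [hw2, Matrix.mul_one, transpose_mul]
      _ = 1 := by rw [hw1, transpose_one]
  have hMdet : IsUnit M.det := by
    apply isUnit_det_of_left_inverse (B := W' * V⁻¹ * W'ᵀ)
    calc W' * V⁻¹ * W'ᵀ * M = W' * V⁻¹ * (W'ᵀ * Wᵀ) * V * W := by
          rw [hM]; simp only [Matrix.mul_assoc]
      _ = W' * (V⁻¹ * V) * W := by
          rw [← transpose_mul, hw1, transpose_one, Matrix.mul_one]; simp only [Matrix.mul_assoc]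
      _ = 1 := by rw [nonsing_inv_mul V hdet, Matrix.mul_one, hw2]
  have hdd : IsUnit (V₁.det * V₂.det) := by
    rw [hMb, det_fromBlocks_zero₂₁] at hMdet
    exact hMdet
  have hd1 : IsUnit V₁.det := isUnit_of_mul_isUnit_left hdd
  have hd2 : IsUnit V₂.det := isUnit_of_mul_isUnit_right hdd
  set h₁ := V₁⁻¹ * V₁ᵀ with hh1
  set h₂ := V₂⁻¹ * V₂ᵀ with hh2
  have hVh1 : V₁ * h₁ = V₁ᵀ := mul_nonsing_inv_cancel_left V₁ _ hd1
  have hVh2 : V₂ * h₂ = V₂ᵀ := mul_nonsing_inv_cancel_left V₂ _ hd2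
  have hH : W' * h * W = fromBlocks h₁ 0 0 h₂ := by
    have e1 : M * (W' * h * W) = Mᵀ := by
      calc M * (W' * h * W) = Wᵀ * V * (W * W') * h * W := by
            rw [hM]; simp only [Matrix.mul_assoc]
        _ = Wᵀ * (V * h) * W := by rw [hw1, Matrix.mul_one]; simp only [Matrix.mul_assoc]
        _ = Mᵀ := by
            rw [hVh, hM, transpose_mul, transpose_mul, transpose_transpose]
            simp only [Matrix.mul_assoc]
    have e2 : M * fromBlocks h₁ 0 0 h₂ = Mᵀ := by
      rw [hMb, fromBlocks_multiply, fromBlocks_transpose]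
      simp [hVh1, hVh2]
    have := congrArg (M⁻¹ * ·) (e1.trans e2.symm)
    simpa [nonsing_inv_mul_cancel_left M _ hMdet] using this
  have hP1 : aeval h₁ P = 0 := by
    have e1 : aeval (W' * h * W) P * (W' * e * W) = 0 := by
      rw [aeval_conj hw1 hw2]
      calc W' * aeval h P * W * (W' * e * W) = W' * aeval h P * (W * W') * e * W := by
            simp only [Matrix.mul_assoc]
        _ = W' * (aeval h P * e) * W := by rw [hw1, Matrix.mul_one]; simp only [Matrix.mul_assoc]
        _ = 0 := by rw [hPe, Matrix.mul_zero, Matrix.zero_mul]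
    rw [hH, aeval_fromBlocks, hwe, hE0, fromBlocks_multiply] at e1
    have h2 := congrArg toBlocks₁₁ e1
    rw [toBlocks_fromBlocks₁₁, show toBlocks₁₁ (0 : Matrix (Fin r ⊕ Fin s) (Fin r ⊕ Fin s) ℤ) = 0
      from rfl] at h2
    simpa using h2
  have hQ2 : aeval h₂ Q = 0 := by
    have e1 : aeval (W' * h * W) Q * (W' * f * W) = 0 := by
      rw [aeval_conj hw1 hw2]
      calc W' * aeval h Q * W * (W' * f * W) = W' * aeval h Q * (W * W') * f * W := by
            simp only [Matrix.mul_assoc]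
        _ = W' * (aeval h Q * f) * W := by rw [hw1, Matrix.mul_one]; simp only [Matrix.mul_assoc]
        _ = 0 := by rw [hQf, Matrix.mul_zero, Matrix.zero_mul]
    rw [hH, aeval_fromBlocks, hwf, hF0, fromBlocks_multiply] at e1
    have h2 := congrArg toBlocks₂₂ e1
    rw [toBlocks_fromBlocks₂₂, show toBlocks₂₂ (0 : Matrix (Fin r ⊕ Fin s) (Fin r ⊕ Fin s) ℤ) = 0
      from rfl] at h2
    simpa using h2
  -- characteristic polynomials
  have hprod : Associated (h₁.charpoly * h₂.charpoly) (P * Q) := by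
    have e1 := alex_conj hw1 hw2 V
    rw [← hM, hMb, alex_fromBlocks, alex_eq hVh1, alex_eq hVh2] at e1
    have a1 : Associated (C V₁.det * h₁.charpoly * (C V₂.det * h₂.charpoly))
        (h₁.charpoly * h₂.charpoly) := by
      have : C V₁.det * h₁.charpoly * (C V₂.det * h₂.charpoly)
          = (h₁.charpoly * h₂.charpoly) * C (V₁.det * V₂.det) := by
        rw [C_mul]; ring
      rw [this]
      exact associated_mul_unit_left _ _ (hdd.map C)
    have a2 : Associated (alex V * C (W * Wᵀ).det) (P * Q) := by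
      have a3 : Associated (alex V) (P * Q) := by
        rcases hV with h4 | h4 <;> rw [h4]
        exact (Associated.refl _).neg_left
      exact (associated_mul_unit_left _ _ (hWW.map C)).trans a3
    rw [e1] at a1
    exact a1.symm.trans a2
  have g1 : h₁.charpoly ∣ P := charpoly_dvd h₁ hc hP1
    ((dvd_mul_right _ _).trans hprod.dvd)
  have g2 : h₂.charpoly ∣ Q := charpoly_dvd h₂ hc.symm hQ2
    ((dvd_mul_left _ _).trans (by rw [mul_comm Q P]; exact hprod.dvd))
  have m1 : h₁.charpoly.Monic := charpoly_monic _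
  have m2 : h₂.charpoly.Monic := charpoly_monic _
  have n1 : h₁.charpoly.natDegree = r := by
    rw [charpoly_natDegree_eq_dim, Fintype.card_fin]
  have n2 : h₂.charpoly.natDegree = s := by
    rw [charpoly_natDegree_eq_dim, Fintype.card_fin]
  have l1 : r ≤ P.natDegree := n1 ▸ natDegree_le_of_dvd g1 hP.ne_zero
  have l2 : s ≤ Q.natDegree := n2 ▸ natDegree_le_of_dvd g2 hQ.ne_zero
  have l3 : P.natDegree + Q.natDegree ≤ r + s := by
    rw [← n1, ← n2, ← hP.natDegree_mul hQ, ← m1.natDegree_mul m2]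
    exact natDegree_le_of_dvd hprod.symm.dvd (m1.mul m2).ne_zero
  have c1 : h₁.charpoly = P := (eq_of_monic_of_dvd_of_natDegree_le m1 hP g1 (by omega)).symm
  have c2 : h₂.charpoly = Q := (eq_of_monic_of_dvd_of_natDegree_le m2 hQ g2 (by omega)).symm
  have r1 : r = P.natDegree := by omega
  have r2 : s = Q.natDegree := by omega
  have f1 : alex V₁ = P ∨ alex V₁ = -P := by
    rw [alex_eq hVh1, c1]
    rcases Int.isUnit_iff.1 hd1 with h4 | h4 <;> rw [h4] <;> simp
  have f2 : alex V₂ = Q ∨ alex V₂ = -Q := by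
    rw [alex_eq hVh2, c2]
    rcases Int.isUnit_iff.1 hd2 with h4 | h4 <;> rw [h4] <;> simp
  clear_value V₁ V₂
  subst r1 r2
  exact ⟨V₁, V₂, W, W', hw1, hw2, hMb, f1, f2⟩

end Pool.Agent.X172.Split
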